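import Pool.Agent.L7h15.SQ.Stm
import Pool.Agent.L7h15.BK.Dec

/-!
# Project SQ, part DSC: the correspondence of the characters for a subfield
-/

set_option autoImplicit false
set_option linter.unusedSectionVars false

namespace Pool.Agent.L7h15.SQ

open NumberField IsDedekindDomain
open Pool.Agent.L7h82.RL
open Pool.Agent.L7h15.BK (exists_frob exists_above)
open scoped Pointwise

section

variable {K F : Type} [Field K] [NumberField K] [Field F] [NumberField F] [Algebra K F] [IsGalois K F]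
  (M : Type) [Field M] [NumberField M] [Algebra K M] [Algebra M F] [IsScalarTower K M F] [IsGalois K M]

lemma res_smul (t : F ≃ₐ[K] F) (x : 𝓞 M) :
    algebraMap (𝓞 M) (𝓞 F) ((AlgEquiv.restrictNormalHom M t : M ≃ₐ[K] M) • x) =
      t • algebraMap (𝓞 M) (𝓞 F) x := by
  apply RingOfIntegers.ext
  exact AlgEquiv.restrictNormal_commutes t M (x : M)

variable (K) in
/-- an automorphism over `M` as an automorphism over `K` -/
def up (g : F ≃ₐ[M] F) : F ≃ₐ[K] F := g.restrictScalars K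

variable (K) in
lemma up_smul (g : F ≃ₐ[M] F) (x : 𝓞 F) : up K M g • x = g • x := rfl

lemma res_up (g : F ≃ₐ[M] F) : (AlgEquiv.restrictNormalHom M (up K M g) : M ≃ₐ[K] M) = 1 := by
  ext x
  have h1 := AlgEquiv.restrictNormal_commutes (up K M g) M x
  have h2 : up K M g (algebraMap M F x) = algebraMap M F x := g.commutes x
  rw [h2] at h1
  exact (algebraMap M F).injective h1

lemma tower_int : algebraMap (𝓞 K) (𝓞 F) = (algebraMap (𝓞 M) (𝓞 F)).comp (algebraMap (𝓞 K) (𝓞 M)) := by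
  ext x
  exact IsScalarTower.algebraMap_apply K M F (x : K)

lemma comap_K {v : HeightOneSpectrum (𝓞 K)} {u : HeightOneSpectrum (𝓞 M)} {u' : HeightOneSpectrum (𝓞 F)}
    (hu : u.asIdeal.comap (algebraMap (𝓞 K) (𝓞 M)) = v.asIdeal)
    (hu' : u'.asIdeal.comap (algebraMap (𝓞 M) (𝓞 F)) = u.asIdeal) :
    u'.asIdeal.comap (algebraMap (𝓞 K) (𝓞 F)) = v.asIdeal := by
  rw [← hu, ← hu', Ideal.comap_comap, ← tower_int]

/-- inertia elements can be lifted -/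
theorem lift_inertia [IsGalois M F] {u : HeightOneSpectrum (𝓞 M)} {u' : HeightOneSpectrum (𝓞 F)}
    (hu' : u'.asIdeal.comap (algebraMap (𝓞 M) (𝓞 F)) = u.asIdeal) (τ : M ≃ₐ[K] M)
    (hτ : ∀ x : 𝓞 M, τ • x - x ∈ u.asIdeal) :
    ∃ T : F ≃ₐ[K] F, AlgEquiv.restrictNormalHom M T = τ ∧ ∀ x : 𝓞 F, T • x - x ∈ u'.asIdeal := by
  have hmu : ∀ y : 𝓞 M, algebraMap (𝓞 M) (𝓞 F) y ∈ u'.asIdeal ↔ y ∈ u.asIdeal := fun y => by
    rw [← hu', Ideal.mem_comap]
  obtain ⟨T0, hT0⟩ := AlgEquiv.restrictNormalHom_surjective (F := K) (K₁ := M) F τ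
  have hτu : ∀ y : 𝓞 M, τ⁻¹ • y ∈ u.asIdeal ↔ y ∈ u.asIdeal := by
    intro y
    have h1 := hτ (τ⁻¹ • y)
    rw [smul_inv_smul] at h1
    constructor
    · intro h
      have := u.asIdeal.add_mem h1 h
      rwa [sub_add_cancel] at this
    · intro h
      have := u.asIdeal.sub_mem h h1
      rwa [sub_sub_cancel] at this
  have hprime := u'.isPrime
  have hprime2 : (T0 • u'.asIdeal).IsPrime := inferInstance
  have hl1 : (T0 • u'.asIdeal).LiesOver u.asIdeal := by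
    constructor
    ext y
    rw [Ideal.under_def, Ideal.mem_comap, Ideal.mem_pointwise_smul_iff_inv_smul_mem,
      ← res_smul, hmu, map_inv, hT0, hτu]
  have hl2 : u'.asIdeal.LiesOver u.asIdeal := ⟨hu'.symm⟩
  obtain ⟨g, hg⟩ := Ideal.exists_smul_eq_of_isGaloisGroup u.asIdeal (T0 • u'.asIdeal) u'.asIdeal
    (F ≃ₐ[M] F)
  -- an element of the decomposition group
  set T1 : F ≃ₐ[K] F := up K M g * T0 with hT1
  have hres1 : AlgEquiv.restrictNormalHom M T1 = τ := by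
    rw [hT1, map_mul, res_up, one_mul, hT0]
  have hst : T1 • u'.asIdeal = u'.asIdeal := by
    rw [hT1, mul_smul]
    have h1 : up K M g • (T0 • u'.asIdeal) = g • (T0 • u'.asIdeal) := by
      ext x
      have a1 : x ∈ up K M g • (T0 • u'.asIdeal) ↔ (up K M g)⁻¹ • x ∈ T0 • u'.asIdeal :=
        Ideal.mem_pointwise_smul_iff_inv_smul_mem
      have a2 : x ∈ g • (T0 • u'.asIdeal) ↔ g⁻¹ • x ∈ T0 • u'.asIdeal :=
        Ideal.mem_pointwise_smul_iff_inv_smul_mem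
      rw [a1, a2]
      rfl
    rw [h1, hg]
  have hT1m : ∀ x, T1 • x ∈ u'.asIdeal ↔ x ∈ u'.asIdeal := by
    intro x
    conv_lhs => rw [← hst]
    exact Ideal.smul_mem_pointwise_smul_iff
  -- the automorphism of the residue field
  let f1 : (𝓞 F ⧸ u'.asIdeal) ≃+* (𝓞 F ⧸ u'.asIdeal) :=
    Ideal.quotientEquiv u'.asIdeal u'.asIdeal (MulSemiringAction.toRingEquiv (F ≃ₐ[K] F) (𝓞 F) T1) (by
      conv_lhs => rw [← hst]
      rfl)
  have hf1 : ∀ x : 𝓞 F, f1 (Ideal.Quotient.mk _ x) = Ideal.Quotient.mk _ (T1 • x) := fun x => rfl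
  let f : (𝓞 F ⧸ u'.asIdeal) ≃ₐ[𝓞 M ⧸ u.asIdeal] (𝓞 F ⧸ u'.asIdeal) :=
    AlgEquiv.ofRingEquiv (f := f1) (by
      intro r
      obtain ⟨y, rfl⟩ := Ideal.Quotient.mk_surjective r
      rw [Ideal.Quotient.algebraMap_mk_of_liesOver, hf1, Ideal.Quotient.eq, ← res_smul, hres1, ← map_sub,
        hmu]
      exact hτ y)
  obtain ⟨h, hh⟩ := Ideal.Quotient.stabilizerHom_surjective (F ≃ₐ[M] F) u.asIdeal u'.asIdeal f
  have hh2 : ∀ x : 𝓞 F, T1 • x - (h : F ≃ₐ[M] F) • x ∈ u'.asIdeal := by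
    intro x
    have h1 := congrArg (fun k => k (Ideal.Quotient.mk u'.asIdeal x)) hh
    have h2 : Ideal.Quotient.mk u'.asIdeal ((h : F ≃ₐ[M] F) • x) = Ideal.Quotient.mk u'.asIdeal (T1 • x) := h1
    exact Ideal.Quotient.eq.1 h2.symm
  refine ⟨(up K M (h : F ≃ₐ[M] F))⁻¹ * T1, ?_, fun x => ?_⟩
  · rw [map_mul, map_inv, res_up, inv_one, one_mul, hres1]
  · have h3 : (h : F ≃ₐ[M] F) • u'.asIdeal = u'.asIdeal := h.2
    have h4 : (h : F ≃ₐ[M] F) • (((up K M (h : F ≃ₐ[M] F))⁻¹ * T1) • x - x) =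
        T1 • x - (h : F ≃ₐ[M] F) • x := by
      rw [smul_sub, ← up_smul K M (h : F ≃ₐ[M] F) (((up K M (h : F ≃ₐ[M] F))⁻¹ * T1) • x), ← mul_smul,
        mul_inv_cancel_left]
    have h5 := hh2 x
    rw [← h4] at h5
    have h6 : (h : F ≃ₐ[M] F) • (((up K M (h : F ≃ₐ[M] F))⁻¹ * T1) • x - x) ∈
        (h : F ≃ₐ[M] F) • u'.asIdeal := by
      rw [h3]
      exact h5
    exact Ideal.smul_mem_pointwise_smul_iff.1 h6

/-- **the correspondence of the characters for a subfield** -/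
theorem dsc [IsPrincipalIdealRing (𝓞 K)] {ψ : (M ≃ₐ[K] M) →* ℂˣ} {𝔣 : Ideal (𝓞 K)} {χ : 𝓞 K → ℂ}
    (h : RC (F := F) (ψ.comp (AlgEquiv.restrictNormalHom M)) 𝔣 χ) : RC ψ 𝔣 χ := by
  have : IsGalois M F := IsGalois.tower_top_of_isGalois K M F
  have hmu : ∀ {u : HeightOneSpectrum (𝓞 M)} {u' : HeightOneSpectrum (𝓞 F)},
      u'.asIdeal.comap (algebraMap (𝓞 M) (𝓞 F)) = u.asIdeal →
      ∀ y : 𝓞 M, algebraMap (𝓞 M) (𝓞 F) y ∈ u'.asIdeal ↔ y ∈ u.asIdeal := fun hu' y => by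
    rw [← hu', Ideal.mem_comap]
  refine ⟨h.ch, fun v hv u hu => ?_, fun v hv u hu t ht => ?_⟩
  · obtain ⟨u', hu'⟩ := exists_above (F := F) u
    obtain ⟨t, h1, h2⟩ := h.ram v hv u' (comap_K M hu hu')
    refine ⟨AlgEquiv.restrictNormalHom M t, fun x => ?_, h2⟩
    rw [← hmu hu', map_sub, res_smul]
    exact h1 _
  · obtain ⟨u', hu'⟩ := exists_above (F := F) u
    have hK := comap_K M hu hu'
    obtain ⟨φ, hφ⟩ := exists_frob hK
    have h1 : ∀ x : 𝓞 M, (t * (AlgEquiv.restrictNormalHom M φ : M ≃ₐ[K] M)⁻¹) • x - x ∈ u.asIdeal := by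
      intro x
      obtain ⟨y, rfl⟩ : ∃ y : 𝓞 M, (AlgEquiv.restrictNormalHom M φ : M ≃ₐ[K] M) • y = x :=
        ⟨(AlgEquiv.restrictNormalHom M φ : M ≃ₐ[K] M)⁻¹ • x, smul_inv_smul _ _⟩
      rw [mul_smul, inv_smul_smul]
      have h2 := ht y
      have h3 : (AlgEquiv.restrictNormalHom M φ : M ≃ₐ[K] M) • y - y ^ Ideal.absNorm v.asIdeal ∈ u.asIdeal := by
        rw [← hmu hu', map_sub, res_smul, map_pow]
        exact hφ _
      have h4 := u.asIdeal.sub_mem h2 h3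
      rwa [sub_sub_sub_cancel_right] at h4
    obtain ⟨T, hT1, hT2⟩ := lift_inertia M hu' _ h1
    have h5 := h.frob v hv u' hK (T * φ) fun x => by
      rw [mul_smul]
      have e : T • (φ • x) - x ^ Ideal.absNorm v.asIdeal = (T • (φ • x) - φ • x) +
        (φ • x - x ^ Ideal.absNorm v.asIdeal) := by ring
      rw [e]
      exact u'.asIdeal.add_mem (hT2 _) (hφ x)
    rw [← h5, MonoidHom.comp_apply, map_mul, hT1, inv_mul_cancel_right]

end

section uniq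

variable {K F : Type} [Field K] [NumberField K] [hP : IsPrincipalIdealRing (𝓞 K)] [Field F] [NumberField F]
  [Algebra K F] [IsGalois K F]

lemma rc_ram {ψ : (F ≃ₐ[K] F) →* ℂˣ} {𝔣 : Ideal (𝓞 K)} {χ : 𝓞 K → ℂ} (h : RC ψ 𝔣 χ)
    {v : HeightOneSpectrum (𝓞 K)} {u : HeightOneSpectrum (𝓞 F)}
    (hu : u.asIdeal.comap (algebraMap (𝓞 K) (𝓞 F)) = v.asIdeal) :
    𝔣 ≤ v.asIdeal ↔ ∃ t : F ≃ₐ[K] F, (∀ x : 𝓞 F, t • x - x ∈ u.asIdeal) ∧ ψ t ≠ 1 := by
  constructor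
  · intro hv
    exact h.ram v hv u hu
  · rintro ⟨s, hs, h1⟩
    by_contra hv
    obtain ⟨t, ht⟩ := exists_frob hu
    have h2 := h.frob v hv u hu t ht
    have h3 := h.frob v hv u hu (t * s) fun x => by
      have e : (t * s) • x - x ^ Ideal.absNorm v.asIdeal =
          (t • (s • x) - (s • x) ^ Ideal.absNorm v.asIdeal) +
            ((s • x) ^ Ideal.absNorm v.asIdeal - x ^ Ideal.absNorm v.asIdeal) := by
        rw [mul_smul]; ring
      rw [e]
      exact u.asIdeal.add_mem (ht _) (u.asIdeal.mem_of_dvd (sub_dvd_pow_sub_pow _ _ _) (hs x))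
    apply h1
    rw [← h2, map_mul, Units.val_mul] at h3
    apply Units.ext
    have h5 : (ψ t : ℂ) ≠ 0 := (ψ t).ne_zero
    exact mul_left_cancel₀ h5 (by rw [h3]; simp)

lemma le_of_eq {𝔣 𝔣' : Ideal (𝓞 K)} {χ : 𝓞 K → ℂ} (h : PK 𝔣 χ) (h' : PK 𝔣' χ) : 𝔣 ≤ 𝔣' := by
  by_contra hno
  have h1 : 𝔣' < 𝔣 ⊔ 𝔣' := by
    refine lt_of_le_of_ne le_sup_right fun h2 => hno ?_
    rw [h2]
    exact le_sup_left
  obtain ⟨x, hx, h2, h3⟩ := h'.prim _ h1
  obtain ⟨a, ha, b, hb, hab⟩ := Submodule.mem_sup.1 hx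
  apply h3
  rw [h'.prd x (1 + a) (by
    have : x - (1 + a) = b := by linear_combination -hab
    rw [this]
    exact hb), h.prd (1 + a) 1 (by simpa using ha), h.one]

/-- **the character of a class field is unique** -/
theorem rc_unique {ψ : (F ≃ₐ[K] F) →* ℂˣ} {𝔣 𝔣' : Ideal (𝓞 K)} {χ χ' : 𝓞 K → ℂ} (h : RC ψ 𝔣 χ)
    (h' : RC ψ 𝔣' χ') : 𝔣 = 𝔣' ∧ χ = χ' := by
  have hv : ∀ v : HeightOneSpectrum (𝓞 K), 𝔣 ≤ v.asIdeal ↔ 𝔣' ≤ v.asIdeal := by
    intro v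
    obtain ⟨u, hu⟩ := exists_above (F := F) v
    rw [rc_ram h hu, rc_ram h' hu]
  have hgen : ∀ v : HeightOneSpectrum (𝓞 K), χ (K4H55.BI.gen v) = χ' (K4H55.BI.gen v) := by
    intro v
    have hmem : K4H55.BI.gen v ∈ v.asIdeal := K4H55.BI.gen_dvd.1 dvd_rfl
    by_cases h1 : 𝔣 ≤ v.asIdeal
    · rw [(h.ch.zero _).2 ⟨v, h1, hmem⟩, (h'.ch.zero _).2 ⟨v, (hv v).1 h1, hmem⟩]
    · obtain ⟨u, hu⟩ := exists_above (F := F) v
      obtain ⟨t, ht⟩ := exists_frob hu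
      rw [← h.frob v h1 u hu t ht, ← h'.frob v (fun h2 => h1 ((hv v).2 h2)) u hu t ht]
  have hχ : χ = χ' := by
    funext x
    induction x using UniqueFactorizationMonoid.induction_on_prime with
    | h₁ =>
      by_cases h1 : 𝔣 = ⊤
      · have h2 : 𝔣' = ⊤ := by
          by_contra h3
          obtain ⟨m, hm, hle⟩ := Ideal.exists_le_maximal _ h3
          have hm0 : m ≠ ⊥ := by
            rintro rfl
            exact h'.ch.f0 (le_bot_iff.1 hle)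
          have h4 := (hv ⟨m, hm.isPrime, hm0⟩).2 hle
          rw [h1] at h4
          exact hm.ne_top (top_le_iff.1 h4)
        rw [h.ch.prd 0 1 (by rw [h1]; trivial), h'.ch.prd 0 1 (by rw [h2]; trivial), h.ch.one, h'.ch.one]
      · obtain ⟨m, hm, hle⟩ := Ideal.exists_le_maximal _ h1
        have hm0 : m ≠ ⊥ := by
          rintro rfl
          exact h.ch.f0 (le_bot_iff.1 hle)
        have h4 := (hv ⟨m, hm.isPrime, hm0⟩).1 hle
        rw [(h.ch.zero 0).2 ⟨⟨m, hm.isPrime, hm0⟩, hle, m.zero_mem⟩,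
          (h'.ch.zero 0).2 ⟨⟨m, hm.isPrime, hm0⟩, h4, m.zero_mem⟩]
    | h₂ x hx => rw [h.ch.unit x hx, h'.ch.unit x hx]
    | h₃ a p ha hp ih =>
      rw [h.ch.mul, h'.ch.mul, ih]
      congr 1
      obtain ⟨v, hv⟩ : ∃ v : HeightOneSpectrum (𝓞 K), v.asIdeal = Ideal.span {p} :=
        ⟨⟨Ideal.span {p}, (Ideal.span_singleton_prime hp.ne_zero).2 hp, by
          rw [Ne, Ideal.span_singleton_eq_bot]; exact hp.ne_zero⟩, rfl⟩
      have hass : Associated (K4H55.BI.gen v) p := by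
        rw [← Ideal.span_singleton_eq_span_singleton, K4H55.BI.gen_span, hv]
      obtain ⟨e, he⟩ := hass
      rw [← he, h.ch.mul, h'.ch.mul, h.ch.unit _ e.isUnit, h'.ch.unit _ e.isUnit, mul_one, mul_one]
      exact hgen v
  subst hχ
  exact ⟨le_antisymm (le_of_eq h.ch h'.ch) (le_of_eq h'.ch h.ch), rfl⟩

end uniq

end Pool.Agent.L7h15.SQ
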