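import Pool.Agent.L7h15.SQ.Val
import Pool.Agent.L7h15.SQ.Dsc

/-!
# Project SQ: the theorem for towers
-/

set_option autoImplicit false
set_option linter.unusedSectionVars false

namespace Pool.Agent.L7h15.SQ

open NumberField IsDedekindDomain Filter Topology
open Pool.Agent.K4H55.BI (rs Prd ee kap fv MF IQ BF ordK gen nu Fser_eq)
open Pool.Agent.K4H55.BK (Vals)
open Pool.Agent.K4H55.CX (br efx facF ord)
open Pool.Agent.L7h82.RL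
open scoped ComplexConjugate

/-- `x` is the value at `1` of an analytic continuation of `f`, which is given for `Re s > 2` -/
def CVal (f : ℂ → ℂ) (x : ℂ) : Prop :=
  ∃ (U : Set ℂ) (Φ : ℂ → ℂ), IsOpen U ∧ IsConnected U ∧ {s : ℂ | (2 : ℝ) < s.re} ⊆ U ∧ (1 : ℂ) ∈ U ∧
    AnalyticOnNhd ℂ Φ U ∧ (∀ s : ℂ, (2 : ℝ) < s.re → Φ s = f s) ∧ Φ 1 = x

theorem cval_iff {f G : ℂ → ℂ} (hG : Differentiable ℂ G) (h : ∀ s : ℂ, 2 < s.re → f s = G s) (x : ℂ) :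
    CVal f x ↔ x = G 1 := by
  have hGa : AnalyticOnNhd ℂ G Set.univ := fun z _ => hG.analyticAt z
  constructor
  · rintro ⟨U, Φ, hU, hUc, hsub, h1, hΦ, hΦf, rfl⟩
    have h3m : (3 : ℂ) ∈ {s : ℂ | (2 : ℝ) < s.re} := by
      show (2 : ℝ) < (3 : ℂ).re
      norm_num
    have h3n : {s : ℂ | (2 : ℝ) < s.re} ∈ 𝓝 (3 : ℂ) :=
      (isOpen_lt continuous_const Complex.continuous_re).mem_nhds h3m
    have h2 : Φ =ᶠ[𝓝 (3 : ℂ)] G := by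
      filter_upwards [h3n] with s hs
      rw [hΦf s hs, h s hs]
    exact hΦ.eqOn_of_preconnected_of_eventuallyEq (hGa.mono (Set.subset_univ _)) hUc.isPreconnected
      (hsub h3m) h2 h1
  · rintro rfl
    exact ⟨Set.univ, G, isOpen_univ, isConnected_univ, Set.subset_univ _, Set.mem_univ _, hGa,
      fun s hs => (h s hs).symm, rfl⟩

section

variable {K : Type} [Field K] [NumberField K]

/-- the `L`-series of `E` over `L`, as an Euler product -/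
noncomputable def LF (n : 𝓞 K) (c : Ideal (𝓞 K) → ℂ) (L : Type) [Field L] [NumberField L] [Algebra K L]
    (s : ℂ) : ℂ :=
  ∏' v : HeightOneSpectrum (𝓞 K),
    ∏ᶠ u : {u : HeightOneSpectrum (𝓞 L) // u.asIdeal.comap (algebraMap (𝓞 K) (𝓞 L)) = v.asIdeal},
      facF n c v (Ideal.absNorm u.1.asIdeal) s

variable [hP : IsPrincipalIdealRing (𝓞 K)] {σ : K →+* ℂ} {δ : K} {n : 𝓞 K} {c : Ideal (𝓞 K) → ℂ}

theorem val_LF {L : Type} [Field L] [NumberField L] [Algebra K L] [IsGalois K L]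
    [Fintype ((L ≃ₐ[K] L) →* ℂˣ)] (hab : ∀ s t : L ≃ₐ[K] L, s * t = t * s)
    {𝔣 : ((L ≃ₐ[K] L) →* ℂˣ) → Ideal (𝓞 K)} {χ : ((L ≃ₐ[K] L) →* ℂˣ) → 𝓞 K → ℂ}
    (hR : ∀ ψ, RC ψ (𝔣 ψ) (χ ψ)) {G : ((L ≃ₐ[K] L) →* ℂˣ) → ℂ → ℂ} (g1 : ∀ ψ, Differentiable ℂ (G ψ))
    (g2 : ∀ ψ, ∀ s : ℂ, 2 < s.re → HasProd (efx n c (χ ψ) s) (G ψ s)) (x : ℂ) :
    CVal (LF n c L) x ↔ x = ∏ ψ, G ψ 1 := by
  obtain ⟨-, -, h3⟩ := L7h60.RL.s_CLS K L hab 𝔣 χ hR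
  refine cval_iff (G := fun s => ∏ ψ, G ψ s) (Differentiable.fun_finsetProd fun ψ _ => g1 ψ)
    (fun s hs => ?_) x
  unfold LF
  simp only [h3 n c]
  exact (hasProd_prod fun ψ _ => g2 ψ s hs).tprod_eq

lemma finite_dual {G : Type} [Group G] [Finite G] (hab : ∀ s t : G, s * t = t * s) :
    Finite (G →* ℂˣ) := by
  refine Nat.finite_of_card_ne_zero ?_
  let _ : CommGroup G := { (inferInstance : Group G) with mul_comm := hab }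
  have e := CommGroup.card_monoidHom_of_hasEnoughRootsOfUnity G ℂ
  have e2 : 0 < Nat.card G := Nat.card_pos
  intro h0
  have e3 : Nat.card (G →* ℂˣ) = Nat.card G := e
  omega

lemma card_dual_eq {L : Type} [Field L] [NumberField L] [Algebra K L] [IsGalois K L]
    (hab : ∀ s t : L ≃ₐ[K] L, s * t = t * s) :
    Nat.card ((L ≃ₐ[K] L) →* ℂˣ) = Module.finrank K L := by
  let _ : CommGroup (L ≃ₐ[K] L) := { (inferInstance : Group (L ≃ₐ[K] L)) with mul_comm := hab }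
  have e := CommGroup.card_monoidHom_of_hasEnoughRootsOfUnity (L ≃ₐ[K] L) ℂ
  have e3 : Nat.card ((L ≃ₐ[K] L) →* ℂˣ) = Nat.card (L ≃ₐ[K] L) := e
  rw [e3]
  exact IsGalois.card_aut_eq_finrank K L

/-- **the theorem for towers** -/
theorem tower_core (h : IQ K σ δ) (hf : BF σ δ n c)
    {ω : ℂ} (hω : ∀ l ∈ Vals σ δ n c, ∃ j : ℤ, l = j * ω)
    {M F : Type} [Field M] [NumberField M] [Algebra K M] [Field F] [NumberField F] [Algebra K F] [Algebra M F]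
    [IsScalarTower K M F] [IsGalois K M] [IsGalois K F]
    (habM : ∀ s t : M ≃ₐ[K] M, s * t = t * s) (hab : ∀ s t : F ≃ₐ[K] F, s * t = t * s)
    {𝔣 : ((F ≃ₐ[K] F) →* ℂˣ) → Ideal (𝓞 K)} {χ : ((F ≃ₐ[K] F) →* ℂˣ) → 𝓞 K → ℂ}
    (hR : ∀ ψ, RC ψ (𝔣 ψ) (χ ψ))
    {𝔣M : ((M ≃ₐ[K] M) →* ℂˣ) → Ideal (𝓞 K)} {χM : ((M ≃ₐ[K] M) →* ℂˣ) → 𝓞 K → ℂ}
    (hRM : ∀ ψ, RC ψ (𝔣M ψ) (χM ψ))
    (hn : ∀ ψ, ∀ v : HeightOneSpectrum (𝓞 K), 𝔣 ψ ≤ v.asIdeal → n ∉ v.asIdeal)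
    (hdF : |(discr F : ℝ)| = |(discr K : ℝ)| ^ Module.finrank K F * ∏ᶠ ψ, (Ideal.absNorm (𝔣 ψ) : ℝ))
    (hdM : |(discr M : ℝ)| = |(discr K : ℝ)| ^ Module.finrank K M * ∏ᶠ ψ, (Ideal.absNorm (𝔣M ψ) : ℝ))
    (hodd : Odd (Module.finrank M F)) :
    (∃ x, CVal (LF n c F) x) ∧ (∃ x, CVal (LF n c M) x) ∧
    ∃ ρ : ℚ, ∀ (xF xM : ℂ), CVal (LF n c F) xF → CVal (LF n c M) xM →
      xF / ((√|(discr F : ℝ)| : ℝ) : ℂ) =
        (ρ : ℂ) ^ 2 * (xM / ((√|(discr M : ℝ)| : ℝ) : ℂ)) ^ Module.finrank M F := by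
  classical
  have hfinF := finite_dual hab
  have : Fintype ((F ≃ₐ[K] F) →* ℂˣ) := Fintype.ofFinite _
  have hfinM := finite_dual habM
  have : Fintype ((M ≃ₐ[K] M) →* ℂˣ) := Fintype.ofFinite _
  obtain ⟨hmul, -, -⟩ := L7h60.RL.s_CLS K F hab 𝔣 χ hR
  choose G g1 g2 g3 using fun ψ => val_one h hf hω (hR ψ).ch (hn ψ)
  -- the characters of `Gal(M/K)`
  let φ : ((M ≃ₐ[K] M) →* ℂˣ) →* ((F ≃ₐ[K] F) →* ℂˣ) :=
    MonoidHom.compHom' (AlgEquiv.restrictNormalHom (F := K) (K₁ := F) M)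
  have hφ : ∀ ψ, φ ψ = ψ.comp (AlgEquiv.restrictNormalHom M) := fun ψ => rfl
  have hφi : Function.Injective φ := by
    intro ψ ψ' he
    rw [hφ, hφ] at he
    apply MonoidHom.ext
    intro s
    obtain ⟨s', rfl⟩ := AlgEquiv.restrictNormalHom_surjective (F := K) (K₁ := M) F s
    exact congrArg (fun k : (F ≃ₐ[K] F) →* ℂˣ => k s') he
  set ℋ := φ.range with hℋ
  let e : ((M ≃ₐ[K] M) →* ℂˣ) ≃ ℋ := (MonoidHom.ofInjective hφi).toEquiv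
  have he : ∀ ψ, ((e ψ : ℋ) : (F ≃ₐ[K] F) →* ℂˣ) = ψ.comp (AlgEquiv.restrictNormalHom M) := fun ψ => rfl
  have : Fintype ℋ := Fintype.ofFinite _
  have hfin : Module.finrank K F = Module.finrank K M * Module.finrank M F :=
    (Module.finrank_mul_finrank K M F).symm
  have hcard : Nat.card ℋ = Module.finrank K M := by
    rw [← Nat.card_congr e, card_dual_eq habM]
  have hind : ℋ.index = Module.finrank M F := by
    have h1 := Subgroup.card_mul_index ℋ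
    rw [hcard, card_dual_eq hab, hfin] at h1
    exact Nat.eq_of_mul_eq_mul_left Module.finrank_pos h1
  have hRM' : ∀ ψ : (M ≃ₐ[K] M) →* ℂˣ, 𝔣M ψ = 𝔣 (e ψ) ∧ χM ψ = χ (e ψ) := by
    intro ψ
    have h1 := hR (e ψ : (F ≃ₐ[K] F) →* ℂˣ)
    rw [he] at h1 ⊢
    exact rc_unique (hRM ψ) (dsc M h1)
  have hvF := val_LF (n := n) (c := c) hab hR g1 g2
  have hvM := val_LF (n := n) (c := c) habM hRM (fun ψ => g1 (e ψ)) (fun ψ => by
    rw [(hRM' ψ).2]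
    exact g2 (e ψ))
  obtain ⟨ρ, hρ⟩ := val_tower h hf hω (fun ψ => (hR ψ).ch) hmul hn (G := fun ψ => G ψ 1) g3 ℋ (by rwa [hind])
  refine ⟨⟨_, (hvF _).2 rfl⟩, ⟨_, (hvM _).2 rfl⟩, ρ, fun xF xM h1 h2 => ?_⟩
  rw [(hvF xF).1 h1, (hvM xM).1 h2]
  have e1 : ∏ ψ : (M ≃ₐ[K] M) →* ℂˣ, G (e ψ) 1 = ∏ g : ℋ, G g 1 := Equiv.prod_comp e (fun g : ℋ => G g 1)
  rw [e1]
  have hdM' : |(discr M : ℝ)| = |(discr K : ℝ)| ^ Module.finrank K M *
      ∏ g : ℋ, (Ideal.absNorm (𝔣 g) : ℝ) := by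
    rw [hdM, finprod_eq_prod_of_fintype]
    congr 1
    rw [← Equiv.prod_comp e]
    exact Finset.prod_congr rfl fun ψ _ => by rw [(hRM' ψ).1]
  rw [finprod_eq_prod_of_fintype] at hdF
  have hsq : ∀ (k : ℕ) (D : ℝ), √(|(discr K : ℝ)| ^ k * D) = √|(discr K : ℝ)| ^ k * √D := by
    intro k D
    rw [Real.sqrt_mul (by positivity)]
    congr 1
    have h6 : |(discr K : ℝ)| ^ k = (√|(discr K : ℝ)| ^ k) ^ 2 := by
      rw [← pow_mul, mul_comm k 2, pow_mul, Real.sq_sqrt (abs_nonneg _)]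
    rw [h6, Real.sqrt_sq (by positivity)]
  rw [hind] at hρ
  rw [hdM', hdF, hsq, hsq, hfin]
  push_cast at hρ ⊢
  have e4 : ∀ A B C : ℂ, A / (B * C) = (A / C) / B := fun A B C => by rw [mul_comm B C, div_div]
  rw [e4, e4, div_pow, hρ, pow_mul, mul_div_assoc]

end

end Pool.Agent.L7h15.SQ
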