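import Pool.Agent.L7h82.RL.Stm

/-!
# Project SQ: towers `K ⊂ M ⊂ F`, `F/K` abelian, `[F : M]` odd: `L(1, E/F)/Ω(E/F)` is a rational square times
`(L(1, E/M)/Ω(E/M)) ^ [F : M]`; statements of the independent parts
-/

set_option autoImplicit false
set_option linter.unusedSectionVars false

namespace Pool.Agent.L7h15.SQ

open NumberField IsDedekindDomain
open Pool.Agent.K4H55.BI (rs ee kap fv MF IQ BF ordK gen)
open Pool.Agent.K4H55.CX (br efx facF)
open Pool.Agent.W189.NF (aV eV)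
open Pool.Agent.L7h82.RL
open scoped ComplexConjugate

/-- **FE**: the functional equation of the sum of the values at the cusps (`MF.lim` for `t → 0`
and `t → ∞` gives `fv (x/m) = w fv (-r/m)`; `invsum` of `L7h53/RL/Tw.lean`). -/
def S_FE : Prop := ∀ (O : Type) [CommRing O] [IsDomain O] (D : K4H55.BI.Ord O) (n : O) (c : O → ℂ) (C : ℝ)
  (w : ℂ) (m : O) (χ : O → ℂ), MF D n c C w → m ≠ 0 → PC m χ → IsCoprime m n → χ (-1) = 1 →
  sm D c m χ = w * (χ n * ∑ x ∈ rs D m, χ x * fv D c (D.ι x / D.ι m))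

/-- **GRP** (pure algebra).  `N` = the order of `𝒢`, `ζ = exp(2πi/N)`. -/
def S_GRP : Prop := ∀ (𝒢 : Type) [CommGroup 𝒢] [Fintype 𝒢] [DecidableEq 𝒢] (ℋ : Subgroup 𝒢) [DecidablePred (· ∈ ℋ)]
  (s ν : 𝒢 → ℂ) (w : ℂ) (P : 𝒢 → Polynomial ℤ), Odd ℋ.index → (w = 1 ∨ w = -1) →
  (∀ g h, ν (g * h) = ν g * ν h) → (∀ g, ν g * conj (ν g) = 1) →
  (∀ g, s g = w * ν g * conj (s g)) → (∀ g, s g⁻¹ = conj (s g)) →
  (∀ g, ∀ k : ℕ, k.Coprime (Nat.card 𝒢) →
    Polynomial.aeval (Complex.exp (2 * Real.pi * Complex.I / (Nat.card 𝒢 : ℂ)) ^ k) (P g) = s (g ^ k)) →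
  (∀ g ∈ ℋ, s g ≠ 0) → ∃ T : ℤ, ∏ g ∈ Finset.univ.filter (· ∉ ℋ), s g = (T : ℂ) ^ 2

/-- **DSC**: the correspondence of the characters for a subfield `M`.  `ram`: a place `u` of `M`, `u'` of `F` above `u`,
restrict the `t` of `u'`.  `frob`: lift `t` to `T₁` in the decomposition group of `u'`
(`Ideal.exists_smul_eq_of_isGaloisGroup` for `F/M`); the Frobenius of the residue field of `u'` and `T₁` agree on the residue field of
`u`, so they differ by an `h ∈ Gal(F/M)` of the decomposition group (`Ideal.Quotient.stabilizerHom_surjective`); use `frob` for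
`h T₁`, which restricts to `t`. -/
def S_DSC : Prop := ∀ (K F : Type) [Field K] [NumberField K] [IsPrincipalIdealRing (𝓞 K)] [Field F] [NumberField F]
  [Algebra K F] [IsGalois K F] (M : IntermediateField K F) [IsGalois K M] (ψ : (M ≃ₐ[K] M) →* ℂˣ)
  (𝔣 : Ideal (𝓞 K)) (χ : 𝓞 K → ℂ), RC (F := F) (ψ.comp (AlgEquiv.restrictNormalHom M)) 𝔣 χ → RC ψ 𝔣 χ

/-- **DU**: the characters of `Gal(M/K)`. -/
def S_DU : Prop := ∀ (K F : Type) [Field K] [NumberField K] [Field F] [NumberField F] [Algebra K F] [IsGalois K F]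
  (M : IntermediateField K F) [IsGalois K M], (∀ s t : F ≃ₐ[K] F, s * t = t * s) →
  ∃ ℋ : Subgroup ((F ≃ₐ[K] F) →* ℂˣ), (∀ ψ, ψ ∈ ℋ ↔ ∀ g ∈ M.fixingSubgroup, ψ g = 1) ∧
    ℋ.index = Module.finrank M F ∧ Nat.card ℋ = Module.finrank K M ∧
    ∃ e : ((M ≃ₐ[K] M) →* ℂˣ) ≃ ℋ, ∀ ψ, ((e ψ : ℋ) : (F ≃ₐ[K] F) →* ℂˣ) = ψ.comp (AlgEquiv.restrictNormalHom M)

/-- `Ω` is a value of the period of `y² = x³ + a x + b` over the (totally complex) field `L`: for every place `w` of `L` a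
basis of the lattice of the periods of `dx/(2y)`, given by its invariants -/
def IsOm {L : Type} [Field L] [NumberField L] (a b : L) (Ω : ℝ) : Prop :=
  ∃ P : InfinitePlace L → PeriodPair, (∀ w, (P w).g₂ = -4 * w.embedding a ∧ (P w).g₃ = -4 * w.embedding b) ∧
    Ω = √|(discr L : ℝ)| * ∏ w, |((P w).ω₁ * conj (P w).ω₂).im|

/-- **OMG** (`S_PER`, proved by helper65; all embeddings of `L` restrict to `σ` or `conj σ`; the number of the places of `L` is
`[L : K]`, as there is no real place). -/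
def S_OMG : Prop := S_PER → ∀ (K : Type) [Field K] [NumberField K] (σ : K →+* ℂ) (δ : K), IQ K σ δ → ∀ a b : K,
  ∃ p : ℝ, 0 < p ∧ ∀ (L : Type) [Field L] [NumberField L] [Algebra K L] (Ω : ℝ),
    IsOm (algebraMap K L a) (algebraMap K L b) Ω → Ω = √|(discr L : ℝ)| * p ^ Module.finrank K L

open Classical in
/-- **SPL**: if the places above `2 (4a³ + 27b²)` split completely, the Euler product is that of Mathlib's `L`-series
(`LSeries_hasProd`, `fac_eq` of `L7h15/BK/Fac.lean` at the good places, `split_norm`, `deg1_split`, `exists_iso` of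
`L7h15/BK/Spl.lean` (and `Mt.lean`, `Bsd.lean`) at the others: `aV`, `eV` are the same for `u` and `v`). -/
def S_SPL : Prop := ∀ (K : Type) [Field K] [NumberField K] [IsPrincipalIdealRing (𝓞 K)] (σ : K →+* ℂ) (δ : K)
  (n a b : 𝓞 K) (c : Ideal (𝓞 K) → ℂ), IQ K σ δ → 4 * a ^ 3 + 27 * b ^ 2 ≠ 0 →
  (∀ v : HeightOneSpectrum (𝓞 K), c v.asIdeal = (aV (L7h15.BK.cv (a : K) (b : K)) v : ℂ) ∧
    (eV (L7h15.BK.cv (a : K) (b : K)) v : ℂ) = if n ∈ v.asIdeal then 0 else (Ideal.absNorm v.asIdeal : ℂ)) →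
  ∀ (L : Type) [Field L] [NumberField L] [Algebra K L] [IsGalois K L],
  (∀ v : HeightOneSpectrum (𝓞 K), 2 * (4 * a ^ 3 + 27 * b ^ 2) ∈ v.asIdeal →
      Nonempty (L →ₐ[K] v.adicCompletion K)) → ∀ s : ℂ, 2 < s.re →
  HasProd (fun v : HeightOneSpectrum (𝓞 K) =>
    ∏ᶠ u : {u : HeightOneSpectrum (𝓞 L) // u.asIdeal.comap (algebraMap (𝓞 K) (𝓞 L)) = v.asIdeal},
      facF n c v (Ideal.absNorm u.1.asIdeal) s)
    ((L7h15.BK.cv (algebraMap K L (a : K)) (algebraMap K L (b : K))).LSeries s)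

end Pool.Agent.L7h15.SQ
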