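import Pool.Agent.L7h15.SQ.Tow
import Pool.Agent.L7h65.SQ.Omg
import Pool.Agent.L7h65.RL2.Per
import Pool.Agent.L7h60.SQ.Spl

/-!
# Project SQ: the final form
-/

set_option autoImplicit false
set_option linter.unusedSectionVars false

namespace Pool.Agent.L7h15.SQ

open NumberField IsDedekindDomain Filter Topology
open Pool.Agent.K4H55.BI (rs Prd ee kap fv MF IQ BF ordK gen nu Fser_eq)
open Pool.Agent.K4H55.BK (Vals)
open Pool.Agent.K4H55.CX (br efx facF ord)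
open Pool.Agent.L7h82.RL
open Pool.Agent.L7h65.SQ (emb_or card_places im_ne)
open scoped ComplexConjugate

/-- the values of the period, with arbitrary embeddings -/
def IsOe {L : Type} [Field L] [NumberField L] (a b : L) (Ω : ℝ) : Prop :=
  ∃ (e : InfinitePlace L → (L →+* ℂ)) (P : InfinitePlace L → PeriodPair),
    (∀ w, InfinitePlace.mk (e w) = w ∧ w.IsComplex ∧ (P w).g₂ = -4 * e w a ∧ (P w).g₃ = -4 * e w b) ∧
    Ω = √|(discr L : ℝ)| * ∏ w, |((P w).ω₁ * conj (P w).ω₂).im|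

theorem om_e {K : Type} [Field K] [NumberField K] {σ : K →+* ℂ} {δ : K} (h : IQ K σ δ) (a b : K) :
    ∃ p : ℝ, 0 < p ∧ ∀ (L : Type) [Field L] [NumberField L] [Algebra K L] (Ω : ℝ),
      IsOe (algebraMap K L a) (algebraMap K L b) Ω → Ω = √|(discr L : ℝ)| * p ^ Module.finrank K L := by
  have key : ∀ (L : Type) [Field L] [NumberField L] [Algebra K L] (e : L →+* ℂ) (P : PeriodPair),
      P.g₂ = -4 * e (algebraMap K L a) → P.g₃ = -4 * e (algebraMap K L b) →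
      (P.g₂ = -4 * σ a ∧ P.g₃ = -4 * σ b) ∨
        (P.g₂ = conj (-4 * σ a) ∧ P.g₃ = conj (-4 * σ b)) := by
    intro L _ _ _ e P h1 h2
    rcases emb_or h (e.comp (algebraMap K L)) with h3 | h3
    · left
      rw [← h3]
      exact ⟨h1, h2⟩
    · right
      have h4 : ∀ x, e (algebraMap K L x) = conj (σ x) := fun x =>
        congrArg (fun f : K →+* ℂ => f x) h3
      rw [h1, h2, h4, h4, map_mul, map_mul, map_neg, map_ofNat]
      exact ⟨rfl, rfl⟩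
  by_cases hQ : ∃ Q : PeriodPair, (Q.g₂ = -4 * σ a ∧ Q.g₃ = -4 * σ b) ∨
      (Q.g₂ = conj (-4 * σ a) ∧ Q.g₃ = conj (-4 * σ b))
  · obtain ⟨Q, hQ⟩ := hQ
    refine ⟨|(Q.ω₁ * conj Q.ω₂).im|, abs_pos.2 (im_ne Q), fun L _ _ _ Ω hΩ => ?_⟩
    obtain ⟨e, P, hP, hO⟩ := hΩ
    have hw : ∀ w : InfinitePlace L, |((P w).ω₁ * conj (P w).ω₂).im| = |(Q.ω₁ * conj Q.ω₂).im| := by
      intro w
      have h1 := key L (e w) (P w) (hP w).2.2.1 (hP w).2.2.2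
      apply L7h65.RL2.s_PER
      rcases h1 with ⟨h2, h3⟩ | ⟨h2, h3⟩ <;> rcases hQ with ⟨h4, h5⟩ | ⟨h4, h5⟩
      · left; rw [h2, h3, h4, h5]; exact ⟨rfl, rfl⟩
      · right; rw [h2, h3, h4, h5, Complex.conj_conj, Complex.conj_conj]; exact ⟨rfl, rfl⟩
      · right; rw [h2, h3, h4, h5]; exact ⟨rfl, rfl⟩
      · left; rw [h2, h3, h4, h5]; exact ⟨rfl, rfl⟩
    rw [hO, Finset.prod_congr rfl fun w _ => hw w, Finset.prod_const, Finset.card_univ, card_places h L]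
  · refine ⟨1, one_pos, fun L _ _ _ Ω hΩ => ?_⟩
    obtain ⟨e, P, hP, hO⟩ := hΩ
    exfalso
    have w : InfinitePlace L := Classical.arbitrary _
    exact hQ ⟨P w, key L (e w) (P w) (hP w).2.2.1 (hP w).2.2.2⟩

section

variable {K : Type} [Field K] [NumberField K] [hP : IsPrincipalIdealRing (𝓞 K)] {σ : K →+* ℂ} {δ : K}
  {n : 𝓞 K} {c : Ideal (𝓞 K) → ℂ} {M F : Type} [Field M] [NumberField M] [Algebra K M] [Field F]
  [NumberField F] [Algebra K F] [Algebra M F] [IsScalarTower K M F] [IsGalois K M] [IsGalois K F]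

/-- **the theorem for towers, with the periods** -/
theorem tower_om (h : IQ K σ δ) (hf : BF σ δ n c)
    {ω : ℂ} (hω : ∀ l ∈ Vals σ δ n c, ∃ j : ℤ, l = j * ω) (a b : K)
    (habM : ∀ s t : M ≃ₐ[K] M, s * t = t * s) (hab : ∀ s t : F ≃ₐ[K] F, s * t = t * s)
    {𝔣 : ((F ≃ₐ[K] F) →* ℂˣ) → Ideal (𝓞 K)} {χ : ((F ≃ₐ[K] F) →* ℂˣ) → 𝓞 K → ℂ}
    (hR : ∀ ψ, RC ψ (𝔣 ψ) (χ ψ))
    {𝔣M : ((M ≃ₐ[K] M) →* ℂˣ) → Ideal (𝓞 K)} {χM : ((M ≃ₐ[K] M) →* ℂˣ) → 𝓞 K → ℂ}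
    (hRM : ∀ ψ, RC ψ (𝔣M ψ) (χM ψ))
    (hn : ∀ ψ, ∀ v : HeightOneSpectrum (𝓞 K), 𝔣 ψ ≤ v.asIdeal → n ∉ v.asIdeal)
    (hdF : |(discr F : ℝ)| = |(discr K : ℝ)| ^ Module.finrank K F * ∏ᶠ ψ, (Ideal.absNorm (𝔣 ψ) : ℝ))
    (hdM : |(discr M : ℝ)| = |(discr K : ℝ)| ^ Module.finrank K M * ∏ᶠ ψ, (Ideal.absNorm (𝔣M ψ) : ℝ))
    (hq : ∀ z : F, (∃ y : K, z ^ 2 = algebraMap K F y) → ∃ y : M, algebraMap M F y = z) :
    Even (Module.finrank K F - Module.finrank K M) ∧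
    (∃ x, CVal (LF n c F) x) ∧ (∃ x, CVal (LF n c M) x) ∧ (∃ x, CVal (LF n c K) x) ∧
    ∃ ρ : ℚ, ∀ (xF xM xK : ℂ) (ΩF ΩM ΩK : ℝ), CVal (LF n c F) xF → CVal (LF n c M) xM →
      CVal (LF n c K) xK → IsOe (algebraMap K F a) (algebraMap K F b) ΩF →
      IsOe (algebraMap K M a) (algebraMap K M b) ΩM → IsOe a b ΩK →
      xF / (ΩF : ℂ) = (ρ : ℂ) ^ 2 * (xM / (ΩM : ℂ)) *
          (xK / (ΩK : ℂ)) ^ (Module.finrank K F - Module.finrank K M) := by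
  obtain ⟨h1, h2, h3, h4, ρ, hρ⟩ := tower h hf hω habM hab hR hRM hn hdF hdM hq
  obtain ⟨p, hp0, hp⟩ := om_e h a b
  refine ⟨h1, h2, h3, h4, ρ, fun xF xM xK ΩF ΩM ΩK k1 k2 k3 k4 k5 k6 => ?_⟩
  have h5 := hρ xF xM xK k1 k2 k3
  have h6 := hp K ΩK k6
  rw [Module.finrank_self, pow_one] at h6
  rw [hp F ΩF k4, hp M ΩM k5, h6]
  have hle : Module.finrank K M ≤ Module.finrank K F := by
    have h5 : Module.finrank K F = Module.finrank K M * Module.finrank M F :=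
      (Module.finrank_mul_finrank K M F).symm
    rw [h5]
    exact Nat.le_mul_of_pos_right _ Module.finrank_pos
  have hp0' : (p : ℂ) ≠ 0 := by exact_mod_cast hp0.ne'
  push_cast
  have e4 : ∀ A B C : ℂ, A / (B * C) = (A / B) / C := fun A B C => by rw [div_div]
  rw [e4, e4, e4, h5]
  obtain ⟨d, hd⟩ := Nat.exists_eq_add_of_le hle
  rw [hd, Nat.add_sub_cancel_left, pow_add, div_pow (xK / _) (p : ℂ) d]
  have hp1 : (p : ℂ) ^ d ≠ 0 := pow_ne_zero _ hp0'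
  have hp2 : (p : ℂ) ^ Module.finrank K M ≠ 0 := pow_ne_zero _ hp0'
  generalize (p : ℂ) ^ d = P at hp1 ⊢
  generalize (p : ℂ) ^ Module.finrank K M = Q at hp2 ⊢
  generalize (xK / (√|(discr K : ℝ)| : ℝ)) ^ d = X
  generalize xM / (√|(discr M : ℝ)| : ℝ) = Y
  field_simp

/-- odd extensions contain no new square roots -/
theorem odd_sq (hodd : Odd (Module.finrank M F)) (z : F) (hz : ∃ y : K, z ^ 2 = algebraMap K F y) :
    ∃ y : M, algebraMap M F y = z := by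
  obtain ⟨y, hy⟩ := hz
  rw [IsScalarTower.algebraMap_apply K M F] at hy
  generalize algebraMap K M y = y' at hy
  by_cases hy0 : y' = 0
  · rw [hy0, map_zero] at hy
    exact ⟨0, by rw [map_zero]; exact (pow_eq_zero_iff two_ne_zero).1 hy |>.symm⟩
  obtain ⟨k, hk⟩ := hodd
  set N := Algebra.norm M z with hN
  have h1 : N ^ 2 = y' ^ (2 * k + 1) := by
    rw [hN, ← map_pow, hy, Algebra.norm_algebraMap, hk]
  have h2 : algebraMap M F (N / y' ^ k) ^ 2 = z ^ 2 := by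
    rw [hy, ← map_pow, div_pow, h1]
    congr 1
    rw [pow_succ, mul_comm 2 k, pow_mul]
    field_simp
  rcases sq_eq_sq_iff_eq_or_eq_neg.1 h2 with h3 | h3
  · exact ⟨_, h3⟩
  · exact ⟨-(N / y' ^ k), by rw [map_neg, h3, neg_neg]⟩

end

end Pool.Agent.L7h15.SQ
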