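import Pool.Agent.L7h15.SQ.Stm
import Pool.Agent.L7h50.RL.Cyc

/-!
# Project SQ, part GRP
-/

set_option autoImplicit false
set_option linter.unusedSectionVars false

namespace Pool.Agent.L7h15.SQ

open Finset
open scoped ComplexConjugate

section grp

variable {𝒢 : Type} [CommGroup 𝒢] [Fintype 𝒢] [DecidableEq 𝒢]

/-- the powers prime to the order are injective -/
lemma pow_inj {k : ℕ} (hk : k.Coprime (Nat.card 𝒢)) : Function.Injective (fun g : 𝒢 => g ^ k) :=
  (powCoprime (Nat.coprime_comm.1 hk)).injective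

/-- products over pairs -/
lemma prod_half {S : Finset 𝒢} (A : 𝒢 → Prop) [DecidablePred A] (hS : ∀ g ∈ S, g⁻¹ ∈ S)
    (hA : ∀ g ∈ S, (A g ∧ ¬ A g⁻¹) ∨ (¬ A g ∧ A g⁻¹)) (f : 𝒢 → ℂ) :
    ∏ g ∈ S, f g = ∏ g ∈ S.filter A, (f g * f g⁻¹) := by
  rw [← Finset.prod_filter_mul_prod_filter_not S A, Finset.prod_mul_distrib]
  congr 1
  refine Finset.prod_nbij' (fun g => g⁻¹) (fun g => g⁻¹) ?_ ?_ ?_ ?_ ?_
  · intro g hg
    obtain ⟨h1, h2⟩ := Finset.mem_filter.1 hg
    refine Finset.mem_filter.2 ⟨hS g h1, ?_⟩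
    rcases hA g h1 with h | h
    · exact absurd h.1 h2
    · exact h.2
  · intro g hg
    obtain ⟨h1, h2⟩ := Finset.mem_filter.1 hg
    refine Finset.mem_filter.2 ⟨hS g h1, ?_⟩
    rcases hA g h1 with h | h
    · exact h.2
    · exact absurd h2 h.1
  · intro g _
    exact inv_inv g
  · intro g _
    exact inv_inv g
  · intro g _
    rw [inv_inv]

/-- products over representatives of the pairs, and powers -/
lemma prod_reps {B : Finset 𝒢} {k : ℕ} (hk : k.Coprime (Nat.card 𝒢)) (hB : ∀ g ∈ B, g⁻¹ ∈ B)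
    (hBk : ∀ g ∈ B, g ^ k ∈ B) {e : 𝒢 → ℕ} (he : Function.Injective e) {f : 𝒢 → ℂ}
    (hf : ∀ g ∈ B, f g⁻¹ = f g) :
    ∏ g ∈ B.filter (fun g => e g < e g⁻¹), f (g ^ k) = ∏ g ∈ B.filter (fun g => e g < e g⁻¹), f g := by
  have hinj := pow_inj (𝒢 := 𝒢) hk
  set A := B.filter (fun g => e g < e g⁻¹) with hA
  let ψ : 𝒢 → 𝒢 := fun g => if e (g ^ k) < e (g ^ k)⁻¹ then g ^ k else (g ^ k)⁻¹
  have hne : ∀ g ∈ A, g ^ k ≠ (g ^ k)⁻¹ := by
    intro g hg h
    obtain ⟨-, h2⟩ := Finset.mem_filter.1 hg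
    have h3 : (fun g : 𝒢 => g ^ k) g = (fun g : 𝒢 => g ^ k) g⁻¹ := by
      show g ^ k = g⁻¹ ^ k
      rw [inv_pow]
      exact h
    have h4 := hinj h3
    rw [← h4] at h2
    exact lt_irrefl _ h2
  have h1 : ∀ g ∈ A, ψ g ∈ A := by
    intro g hg
    obtain ⟨h2, -⟩ := Finset.mem_filter.1 hg
    have h3 := hBk g h2
    by_cases h4 : e (g ^ k) < e (g ^ k)⁻¹
    · have : ψ g = g ^ k := if_pos h4
      rw [this]
      exact Finset.mem_filter.2 ⟨h3, h4⟩
    · have : ψ g = (g ^ k)⁻¹ := if_neg h4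
      rw [this]
      refine Finset.mem_filter.2 ⟨hB _ h3, ?_⟩
      rw [inv_inv]
      exact lt_of_le_of_ne (not_lt.1 h4) fun h5 => hne g hg (he h5).symm
  have h2 : ∀ x ∈ A, ∀ y ∈ A, ψ x = ψ y → x = y := by
    intro x hx y hy hxy
    have hx2 := (Finset.mem_filter.1 hx).2
    have hy2 := (Finset.mem_filter.1 hy).2
    have key : ∀ a b : 𝒢, a ∈ A → b ∈ A → a ^ k = (b ^ k)⁻¹ → False := by
      intro a b ha hb h
      have ha2 := (Finset.mem_filter.1 ha).2
      have hb2 := (Finset.mem_filter.1 hb).2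
      have h3 : a = b⁻¹ := hinj (by
        show a ^ k = b⁻¹ ^ k
        rw [inv_pow]
        exact h)
      rw [h3, inv_inv] at ha2
      exact lt_asymm ha2 hb2
    by_cases h4 : e (x ^ k) < e (x ^ k)⁻¹
    · have e1 : ψ x = x ^ k := if_pos h4
      by_cases h5 : e (y ^ k) < e (y ^ k)⁻¹
      · have e2 : ψ y = y ^ k := if_pos h5
        rw [e1, e2] at hxy
        exact hinj hxy
      · have e2 : ψ y = (y ^ k)⁻¹ := if_neg h5
        rw [e1, e2] at hxy
        exact (key x y hx hy hxy).elim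
    · have e1 : ψ x = (x ^ k)⁻¹ := if_neg h4
      by_cases h5 : e (y ^ k) < e (y ^ k)⁻¹
      · have e2 : ψ y = y ^ k := if_pos h5
        rw [e1, e2] at hxy
        exact (key y x hy hx hxy.symm).elim
      · have e2 : ψ y = (y ^ k)⁻¹ := if_neg h5
        rw [e1, e2] at hxy
        exact hinj (inv_injective hxy)
  have h3 : A.image ψ = A := by
    refine Finset.eq_of_subset_of_card_le (fun x hx => ?_) ?_
    · obtain ⟨g, hg, rfl⟩ := Finset.mem_image.1 hx
      exact h1 g hg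
    · rw [Finset.card_image_of_injOn fun x hx y hy h => h2 x hx y hy h]
  have h4 : ∀ g ∈ A, f (ψ g) = f (g ^ k) := by
    intro g hg
    by_cases h5 : e (g ^ k) < e (g ^ k)⁻¹
    · have : ψ g = g ^ k := if_pos h5
      rw [this]
    · have : ψ g = (g ^ k)⁻¹ := if_neg h5
      rw [this, hf _ (hBk g (Finset.mem_filter.1 hg).1)]
  conv_rhs => rw [← h3]
  rw [Finset.prod_image fun x hx y hy h => h2 x hx y hy h]
  exact Finset.prod_congr rfl fun g hg => (h4 g hg).symm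

/-- an exponent: the odd part of the order divides `2 j - 1`, the even part divides `j` -/
lemma exists_j : ∃ (a j : ℕ), (∀ g : 𝒢, g ^ (2 ^ a) = 1 → g ^ j = 1) ∧
    ∀ g : 𝒢, (g * ((g ^ j) ^ 2)⁻¹) ^ (2 ^ a) = 1 := by
  have hN : Nat.card 𝒢 ≠ 0 := Nat.card_pos.ne'
  obtain ⟨a, m, hm, hNm⟩ := Nat.exists_eq_two_pow_mul_odd hN
  have hco : Nat.Coprime (2 ^ a) m := Nat.Coprime.pow_left a (Nat.coprime_two_left.2 hm)
  obtain ⟨j, hj1, hj2⟩ := Nat.chineseRemainder hco 0 ((m + 1) / 2)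
  have hd1 : 2 ^ a ∣ j := (Nat.modEq_zero_iff_dvd).1 hj1
  have hd2 : (m : ℤ) ∣ 2 * j - 1 := by
    have h1 : (2 * j : ℕ) ≡ m + 1 [MOD m] := by
      have h2 := hj2.mul_left 2
      obtain ⟨r, hr⟩ := hm
      have h3 : 2 * ((m + 1) / 2) = m + 1 := by omega
      rwa [h3] at h2
    have h2 := (Nat.modEq_iff_dvd.1 h1)
    have h3 : (2 * j - 1 : ℤ) = m - (((m + 1 : ℕ) : ℤ) - ((2 * j : ℕ) : ℤ)) := by push_cast; ring
    rw [h3]
    exact dvd_sub (dvd_refl _) h2
  refine ⟨a, j, fun g hg => ?_, fun g => ?_⟩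
  · obtain ⟨r, rfl⟩ := hd1
    rw [pow_mul, hg, one_pow]
  · have h1 : g * ((g ^ j) ^ 2)⁻¹ = (g ^ (2 * (j : ℤ) - 1))⁻¹ := by
      rw [zpow_sub, zpow_mul, zpow_one, ← pow_mul]
      have : g ^ ((2 : ℤ) * j) = g ^ (j * 2) := by
        rw [← zpow_natCast]; push_cast; ring_nf
      rw [← zpow_mul, this]
      group
    rw [h1, inv_pow, inv_eq_one]
    obtain ⟨r, hr⟩ := hd2
    rw [hr, ← zpow_natCast, ← zpow_mul]
    have h2 : (m : ℤ) * r * ((2 ^ a : ℕ) : ℤ) = (Nat.card 𝒢 : ℤ) * r := by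
      rw [hNm]; push_cast; ring
    rw [h2, zpow_mul, zpow_natCast, pow_card_eq_one', one_zpow]

/-- elements of `2`-power order lie in the subgroups of odd index -/
lemma mem_of_two {ℋ : Subgroup 𝒢} (hodd : Odd ℋ.index) {a : ℕ} {g : 𝒢} (hg : g ^ (2 ^ a) ∈ ℋ) :
    g ∈ ℋ := by
  have h1 : g ^ ℋ.index ∈ ℋ := Subgroup.pow_index_mem ℋ g
  have hco : IsCoprime ((2 ^ a : ℕ) : ℤ) (ℋ.index : ℤ) :=
    Nat.isCoprime_iff_coprime.2 (Nat.Coprime.pow_left a (Nat.coprime_two_left.2 hodd))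
  obtain ⟨x, y, hxy⟩ := hco
  have h2 : g = (g ^ (2 ^ a)) ^ x * (g ^ ℋ.index) ^ y := by
    rw [← zpow_natCast g (2 ^ a), ← zpow_natCast g ℋ.index, ← zpow_mul, ← zpow_mul, ← zpow_add]
    conv_lhs => rw [← zpow_one g, ← hxy]
    congr 1
    ring
  rw [h2]
  exact ℋ.mul_mem (ℋ.zpow_mem hg x) (ℋ.zpow_mem h1 y)

end grp

theorem s_GRP : S_GRP := by
  intro 𝒢 _ _ _ ℋ _ s ν w P hodd hw hνm hνn hFE hinv hP hnz
  have hN : Nat.card 𝒢 ≠ 0 := Nat.card_pos.ne'
  have hζ := Complex.isPrimitiveRoot_exp (Nat.card 𝒢) hN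
  have i1 : NeZero (Nat.card 𝒢) := ⟨hN⟩
  set ζ := Complex.exp (2 * Real.pi * Complex.I / (Nat.card 𝒢 : ℂ)) with hζd
  obtain ⟨a, j, hj1, hj2⟩ := exists_j (𝒢 := 𝒢)
  obtain ⟨e, he⟩ : ∃ e : 𝒢 → ℕ, Function.Injective e :=
    ⟨fun g => (Fintype.equivFin 𝒢 g : ℕ), fun x y h => (Fintype.equivFin 𝒢).injective (Fin.ext h)⟩
  -- `ν`
  have hν1 : ν 1 = 1 := by
    have h1 := hνm 1 1
    rw [mul_one] at h1
    have h2 := hνn 1
    have h3 : ν 1 ≠ 0 := fun h => by rw [h, zero_mul] at h2; exact zero_ne_one h2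
    exact mul_left_cancel₀ h3 (by rw [← h1, mul_one])
  have hνinv : ∀ g, ν g⁻¹ = conj (ν g) := by
    intro g
    have h1 := hνm g g⁻¹
    rw [mul_inv_cancel, hν1] at h1
    have h2 := hνn g
    have h3 : ν g ≠ 0 := fun h => by rw [h, zero_mul] at h2; exact zero_ne_one h2
    exact mul_left_cancel₀ h3 (by rw [← h1, h2])
  have hνpow : ∀ g (k : ℕ), ν (g ^ k) = ν g ^ k := by
    intro g k
    induction k with
    | zero => rw [pow_zero, pow_zero, hν1]
    | succ k ih => rw [pow_succ, hνm, ih, pow_succ]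
  have hνN : ∀ g, ν g ^ Nat.card 𝒢 = 1 := fun g => by rw [← hνpow, pow_card_eq_one', hν1]
  have hwc : conj w = w := by rcases hw with rfl | rfl <;> simp
  have hww : w * w = 1 := by rcases hw with rfl | rfl <;> norm_num
  -- the `2`-part
  set π : 𝒢 → 𝒢 := fun g => g * ((g ^ j) ^ 2)⁻¹ with hπ
  have hπp : ∀ g (k : ℕ), π (g ^ k) = π g ^ k := by
    intro g k
    simp only [hπ]
    rw [mul_pow, inv_pow, ← pow_mul, ← pow_mul, ← pow_mul, ← pow_mul]
    congr 3
    ring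
  have hπi : ∀ g, π g⁻¹ = (π g)⁻¹ := by
    intro g
    simp only [hπ]
    rw [mul_inv, inv_pow, inv_pow]
  have hπm : ∀ g h, π (g * h) = π g * π h := by
    intro g h
    simp only [hπ]
    rw [mul_pow, mul_pow, mul_inv, mul_mul_mul_comm]
  have hππ : ∀ g, π (π g) = π g := by
    intro g
    have h1 := hj1 _ (hj2 g)
    show π g * ((π g ^ j) ^ 2)⁻¹ = π g
    have h2 : π g ^ j = 1 := h1
    rw [h2, one_pow, inv_one, mul_one]
  have hπH : ∀ g, π g ∈ ℋ := fun g => mem_of_two hodd (a := a) (by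
    show (g * ((g ^ j) ^ 2)⁻¹) ^ (2 ^ a) ∈ ℋ
    rw [hj2 g]
    exact ℋ.one_mem)
  -- the set
  set S := Finset.univ.filter (· ∉ ℋ) with hS
  have hSm : ∀ g, g ∈ S ↔ g ∉ ℋ := fun g => by rw [hS, Finset.mem_filter]; simp
  have hSi : ∀ g ∈ S, g⁻¹ ∈ S := fun g hg => (hSm _).2 fun h => (hSm g).1 hg (by
    have := ℋ.inv_mem h
    rwa [inv_inv] at this)
  have hSk : ∀ {k : ℕ}, k.Coprime (Nat.card 𝒢) → ∀ g ∈ S, g ^ k ∈ S := by
    intro k hk g hg
    refine (hSm _).2 fun h => (hSm g).1 hg ?_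
    obtain ⟨k', hk'⟩ := exists_pow_eq_self_of_coprime (x := g) (hk.coprime_dvd_right (orderOf_dvd_natCard g))
    rw [← hk']
    exact ℋ.pow_mem h k'
  have hS2 : ∀ g ∈ S, g ≠ g⁻¹ := by
    intro g hg h
    refine (hSm g).1 hg (mem_of_two hodd (a := 1) ?_)
    have : g ^ 2 = 1 := by
      rw [pow_two]
      nth_rewrite 1 [h]
      exact inv_mul_cancel g
    rw [pow_one, this]
    exact ℋ.one_mem
  -- the modified values
  set t : 𝒢 → ℂ := fun g => ν (g ^ j)⁻¹ * s g with ht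
  set u : 𝒢 → ℂ := fun b => w * ν b with hu
  have huu : ∀ b, conj (u b) * u b = 1 := by
    intro b
    simp only [hu]
    rw [map_mul, hwc]
    linear_combination (w * w) * hνn b + hww
  have hui : ∀ b, u b⁻¹ = conj (u b) := by
    intro b
    simp only [hu]
    rw [hνinv, map_mul, hwc]
  have htc : ∀ g, conj (t g) = ν (g ^ j) * conj (s g) := by
    intro g
    simp only [ht]
    rw [map_mul, hνinv, Complex.conj_conj]
  have hts : ∀ g, t g * conj (t g) = s g * s g⁻¹ := by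
    intro g
    rw [htc, hinv]
    simp only [ht]
    rw [hνinv]
    linear_combination (s g * conj (s g)) * hνn (g ^ j)
  have hti : ∀ g, t g⁻¹ = conj (t g) := by
    intro g
    rw [htc]
    simp only [ht]
    rw [inv_pow, inv_inv, hinv]
  have htu : ∀ g, conj (t g) = conj (u (π g)) * t g := by
    intro g
    have h1 : ν (π g) = ν g * (conj (ν (g ^ j)) * conj (ν (g ^ j))) := by
      simp only [hπ]
      rw [hνm, ← inv_pow, pow_two, hνm, hνinv]
    have h2 : t g = u (π g) * conj (t g) := by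
      rw [htc]
      simp only [ht, hu]
      rw [h1, hνinv]
      nth_rewrite 1 [hFE g]
      linear_combination (-(w * ν g * conj (ν (g ^ j)) * conj (s g))) * hνn (g ^ j)
    linear_combination conj (t g) * (-(huu (π g))) - conj (u (π g)) * h2
  -- polynomials
  have hV : ∀ g, ∃ V : Polynomial ℤ, ∀ k : ℕ, Polynomial.aeval (ζ ^ k) V = ν (g ^ k) := by
    intro g
    obtain ⟨r, -, hr⟩ := hζ.eq_pow_of_pow_eq_one (hνN g)
    refine ⟨Polynomial.X ^ r, fun k => ?_⟩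
    rw [map_pow, Polynomial.aeval_X, ← pow_mul, mul_comm k r, pow_mul, hr, hνpow]
  choose V hV using hV
  obtain ⟨w', hw'⟩ : ∃ w' : ℤ, (w' : ℂ) = w := by
    rcases hw with rfl | rfl
    · exact ⟨1, by simp⟩
    · exact ⟨-1, by simp⟩
  have hPt : ∀ g, ∀ k : ℕ, k.Coprime (Nat.card 𝒢) →
      Polynomial.aeval (ζ ^ k) (V (g ^ j)⁻¹ * P g) = t (g ^ k) := by
    intro g k hk
    rw [map_mul, hV, hP g k hk]
    simp only [ht]
    congr 2
    rw [inv_pow, ← pow_mul, ← pow_mul, mul_comm]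
  have hval1 : ∀ (Q : Polynomial ℤ), Polynomial.aeval ζ Q = Polynomial.aeval (ζ ^ 1) Q := fun Q => by
    rw [pow_one]
  -- the fibers
  set Fb : 𝒢 → Finset 𝒢 := fun b => S.filter (fun g => π g = b) with hFb
  have hFm : ∀ b g, g ∈ Fb b ↔ g ∈ S ∧ π g = b := fun b g => Finset.mem_filter
  have hFe : ∀ b, Even (Fb b).card := by
    intro b
    have h1 : ((Fb b).card : ZMod 2) = 0 := by
      rw [Finset.card_eq_sum_ones, Nat.cast_sum]
      refine Finset.sum_involution (fun g _ => g⁻¹ * (b * b)) ?_ ?_ ?_ ?_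
      · intro g _
        rw [Nat.cast_one]
        rfl
      · intro g hg _ h
        obtain ⟨h2, h3⟩ := (hFm b g).1 hg
        have h4 : (g * b⁻¹) ^ (2 ^ 1) = 1 := by
          have h5 : g⁻¹ * (b * b) = g := h
          rw [pow_one, pow_two]
          have h6 : g * g = b * b := by
            nth_rewrite 1 [← h5]
            rw [mul_comm g⁻¹, mul_assoc, inv_mul_cancel, mul_one]
          rw [mul_mul_mul_comm, h6]
          group
        have h5 : g * b⁻¹ ∈ ℋ := mem_of_two hodd (a := 1) (by rw [h4]; exact ℋ.one_mem)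
        have h6 : b ∈ ℋ := h3 ▸ hπH g
        exact (hSm g).1 h2 (by
          have := ℋ.mul_mem h5 h6
          rwa [inv_mul_cancel_right] at this)
      · intro g hg
        obtain ⟨h2, h3⟩ := (hFm b g).1 hg
        refine (hFm b _).2 ⟨(hSm _).2 fun h => ?_, ?_⟩
        · have h6 : b ∈ ℋ := h3 ▸ hπH g
          have h7 := ℋ.mul_mem h (ℋ.inv_mem (ℋ.mul_mem h6 h6))
          rw [mul_inv_cancel_right] at h7
          have h8 := ℋ.inv_mem h7
          rw [inv_inv] at h8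
          exact (hSm g).1 h2 h8
        · have h6 : π b = b := by rw [← h3, hππ]
          rw [hπm, hπm, hπi, h3, h6]
          group
      · intro g _
        show (g⁻¹ * (b * b))⁻¹ * (b * b) = g
        rw [mul_inv, inv_inv, mul_assoc, inv_mul_cancel, mul_one]
    exact (ZMod.natCast_eq_zero_iff_even).1 h1
  have hFi : ∀ b (f : 𝒢 → ℂ), ∏ g ∈ Fb b⁻¹, f g = ∏ g ∈ Fb b, f g⁻¹ := by
    intro b f
    refine Finset.prod_nbij' (fun g => g⁻¹) (fun g => g⁻¹) ?_ ?_ ?_ ?_ ?_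
    · intro g hg
      obtain ⟨h1, h2⟩ := (hFm _ _).1 hg
      exact (hFm _ _).2 ⟨hSi g h1, by rw [hπi, h2, inv_inv]⟩
    · intro g hg
      obtain ⟨h1, h2⟩ := (hFm _ _).1 hg
      exact (hFm _ _).2 ⟨hSi g h1, by rw [hπi, h2]⟩
    · intro g _
      exact inv_inv g
    · intro g _
      exact inv_inv g
    · intro g _
      rw [inv_inv]
  have hFci : ∀ b, (Fb b⁻¹).card = (Fb b).card := by
    intro b
    refine Finset.card_nbij' (fun g => g⁻¹) (fun g => g⁻¹) ?_ ?_ ?_ ?_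
    · intro g hg
      obtain ⟨h1, h2⟩ := (hFm _ _).1 hg
      exact (hFm _ _).2 ⟨hSi g h1, by rw [hπi, h2, inv_inv]⟩
    · intro g hg
      obtain ⟨h1, h2⟩ := (hFm _ _).1 hg
      exact (hFm _ _).2 ⟨hSi g h1, by rw [hπi, h2]⟩
    · intro g _
      exact inv_inv g
    · intro g _
      exact inv_inv g
  have hFk : ∀ {k : ℕ}, k.Coprime (Nat.card 𝒢) → ∀ b, (Fb b).image (fun g => g ^ k) = Fb (b ^ k) := by
    intro k hk b
    ext g
    constructor
    · intro hg
      obtain ⟨h, hh, rfl⟩ := Finset.mem_image.1 hg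
      obtain ⟨h1, h2⟩ := (hFm _ _).1 hh
      exact (hFm _ _).2 ⟨hSk hk h h1, by rw [hπp, h2]⟩
    · intro hg
      obtain ⟨h1, h2⟩ := (hFm _ _).1 hg
      obtain ⟨h, rfl⟩ := (Finite.injective_iff_surjective.1 (pow_inj (𝒢 := 𝒢) hk)) g
      refine Finset.mem_image.2 ⟨h, (hFm _ _).2 ⟨(hSm _).2 fun h3 => (hSm _).1 h1 (ℋ.pow_mem h3 k), ?_⟩, rfl⟩
      have h3 : (fun g : 𝒢 => g ^ k) (π h) = (fun g : 𝒢 => g ^ k) b := by
        show π h ^ k = b ^ k
        rw [← hπp]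
        exact h2
      exact pow_inj hk h3
  have hFck : ∀ {k : ℕ}, k.Coprime (Nat.card 𝒢) → ∀ b, (Fb (b ^ k)).card = (Fb b).card := by
    intro k hk b
    rw [← hFk hk, Finset.card_image_of_injective _ (pow_inj hk)]
  set r : 𝒢 → ℂ := fun b => conj (u b) ^ ((Fb b).card / 2) * ∏ g ∈ Fb b, t g with hr
  have hr2 : ∀ b, ∏ g ∈ Fb b, (t g * conj (t g)) = r b ^ 2 := by
    intro b
    obtain ⟨q, hq⟩ := hFe b
    have h1 : ∏ g ∈ Fb b, (t g * conj (t g)) = ∏ g ∈ Fb b, (conj (u b) * (t g * t g)) := by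
      refine Finset.prod_congr rfl fun g hg => ?_
      rw [htu g, ((hFm _ _).1 hg).2]
      ring
    rw [h1, Finset.prod_mul_distrib, Finset.prod_const, Finset.prod_mul_distrib]
    simp only [hr]
    rw [hq, show (q + q) / 2 = q by omega]
    ring
  have hri : ∀ b, r b⁻¹ = r b := by
    intro b
    obtain ⟨q, hq⟩ := hFe b
    simp only [hr]
    rw [hFci, hFi]
    have h1 : ∏ g ∈ Fb b, t g⁻¹ = conj (u b) ^ (Fb b).card * ∏ g ∈ Fb b, t g := by
      rw [← Finset.prod_const, ← Finset.prod_mul_distrib]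
      refine Finset.prod_congr rfl fun g hg => ?_
      rw [hti, htu g, ((hFm _ _).1 hg).2]
    rw [h1, hui, Complex.conj_conj, hq, show (q + q) / 2 = q by omega]
    have h2 : u b ^ q * conj (u b) ^ q = 1 := by
      rw [← mul_pow, mul_comm (u b), huu, one_pow]
    rw [pow_add]
    linear_combination (conj (u b) ^ q * ∏ g ∈ Fb b, t g) * h2
  have hR : ∀ b, ∀ k : ℕ, k.Coprime (Nat.card 𝒢) → Polynomial.aeval (ζ ^ k)
      ((Polynomial.C w' * V b⁻¹) ^ ((Fb b).card / 2) * ∏ g ∈ Fb b, (V (g ^ j)⁻¹ * P g)) = r (b ^ k) := by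
    intro b k hk
    rw [map_mul, map_pow, map_mul, Polynomial.aeval_C, hV, map_prod]
    simp only [hr]
    rw [hFck hk b, ← hFk hk b, Finset.prod_image fun x _ y _ h => pow_inj hk h]
    congr 1
    · congr 1
      rw [← hui]
      simp only [hu]
      rw [inv_pow]
      congr 1
    · exact Finset.prod_congr rfl fun g _ => hPt g k hk
  -- the first part
  obtain ⟨T1, hT1⟩ := L7h50.RL.cyc_int hN hζ (∏ b ∈ (Finset.univ : Finset 𝒢).filter (fun b => e b < e b⁻¹),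
      ((Polynomial.C w' * V b⁻¹) ^ ((Fb b).card / 2) * ∏ g ∈ Fb b, (V (g ^ j)⁻¹ * P g))) (by
    intro k hk
    rw [hval1, map_prod, map_prod, Finset.prod_congr rfl fun b _ => hR b k hk,
      Finset.prod_congr rfl fun b _ => hR b 1 (Nat.coprime_one_left _)]
    simp only [pow_one]
    exact prod_reps hk (fun _ _ => Finset.mem_univ _) (fun _ _ => Finset.mem_univ _) he
      fun b _ => hri b)
  rw [hval1, map_prod, Finset.prod_congr rfl fun b _ => hR b 1 (Nat.coprime_one_left _)] at hT1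
  simp only [pow_one] at hT1
  -- the second part
  set B := S.filter (fun g => π g = (π g)⁻¹) with hB
  have hBm : ∀ g, g ∈ B ↔ g ∈ S ∧ π g = (π g)⁻¹ := fun g => Finset.mem_filter
  have htB : ∀ g ∈ B, conj (t g) = t g := by
    intro g hg
    obtain ⟨h1, h2⟩ := (hBm g).1 hg
    have h3 := hinv (π g)
    rw [← h2] at h3
    have h4 := hFE (π g)
    rw [← h3] at h4
    have h5 : u (π g) = 1 := by
      have h6 : (u (π g) - 1) * s (π g) = 0 := by
        simp only [hu]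
        linear_combination -h4
      rcases mul_eq_zero.1 h6 with h7 | h7
      · exact sub_eq_zero.1 h7
      · exact absurd h7 (hnz _ (hπH g))
    rw [htu, h5, map_one, one_mul]
  have hBi : ∀ g ∈ B, g⁻¹ ∈ B := fun g hg => (hBm _).2 ⟨hSi g ((hBm g).1 hg).1, by
    rw [hπi, ← ((hBm g).1 hg).2]
    exact ((hBm g).1 hg).2⟩
  have hBk : ∀ {k : ℕ}, k.Coprime (Nat.card 𝒢) → ∀ g ∈ B, g ^ k ∈ B := fun {k} hk g hg =>
    (hBm _).2 ⟨hSk hk g ((hBm g).1 hg).1, by
      rw [hπp]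
      nth_rewrite 1 [((hBm g).1 hg).2]
      rw [inv_pow]⟩
  obtain ⟨T2, hT2⟩ := L7h50.RL.cyc_int hN hζ (∏ g ∈ B.filter (fun g => e g < e g⁻¹),
      (V (g ^ j)⁻¹ * P g)) (by
    intro k hk
    rw [hval1, map_prod, map_prod, Finset.prod_congr rfl fun b _ => hPt b k hk,
      Finset.prod_congr rfl fun b _ => hPt b 1 (Nat.coprime_one_left _)]
    simp only [pow_one]
    exact prod_reps hk hBi (hBk hk) he fun b hb => by rw [hti, htB b hb])
  rw [hval1, map_prod, Finset.prod_congr rfl fun b _ => hPt b 1 (Nat.coprime_one_left _)] at hT2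
  simp only [pow_one] at hT2
  -- the product
  refine ⟨T1 * T2, ?_⟩
  classical
  let A : 𝒢 → Prop := fun g => e (π g) < e (π g)⁻¹ ∨ (π g = (π g)⁻¹ ∧ e g < e g⁻¹)
  have hA : ∀ g ∈ S, (A g ∧ ¬ A g⁻¹) ∨ (¬ A g ∧ A g⁻¹) := by
    intro g hg
    have h1 := hS2 g hg
    have h2 : e g ≠ e g⁻¹ := fun h => h1 (he h)
    simp only [A, hπi, inv_inv]
    by_cases h3 : π g = (π g)⁻¹
    · have h4 : e (π g) = e (π g)⁻¹ := congrArg e h3
      rcases lt_or_gt_of_ne h2 with h5 | h5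
      · left
        exact ⟨Or.inr ⟨h3, h5⟩, by rintro (h6 | h6) <;> omega⟩
      · right
        exact ⟨by rintro (h6 | h6) <;> omega, Or.inr ⟨h3.symm, h5⟩⟩
    · have h4 : e (π g) ≠ e (π g)⁻¹ := fun h => h3 (he h)
      rcases lt_or_gt_of_ne h4 with h5 | h5
      · left
        refine ⟨Or.inl h5, ?_⟩
        rintro (h6 | h6)
        · omega
        · exact h3 h6.1.symm
      · right
        refine ⟨?_, Or.inl h5⟩
        rintro (h6 | h6)
        · omega
        · exact h3 h6.1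
  rw [prod_half A hSi hA s]
  have h1 : ∏ g ∈ S.filter A, s g * s g⁻¹ = ∏ g ∈ S.filter A, (t g * conj (t g)) :=
    Finset.prod_congr rfl fun g _ => (hts g).symm
  rw [h1]
  have h2 : S.filter A = (S.filter fun g => e (π g) < e (π g)⁻¹) ∪ B.filter (fun g => e g < e g⁻¹) := by
    ext g
    simp only [Finset.mem_union, Finset.mem_filter, hBm, A]
    tauto
  rw [h2, Finset.prod_union (by
    rw [Finset.disjoint_left]
    intro g hg hg'
    have h3 := (Finset.mem_filter.1 hg).2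
    have h4 := ((hBm g).1 (Finset.mem_filter.1 hg').1).2
    rw [← h4] at h3
    exact lt_irrefl _ h3)]
  have h3 : ∏ g ∈ S.filter (fun g => e (π g) < e (π g)⁻¹), (t g * conj (t g)) = (T1 : ℂ) ^ 2 := by
    rw [← hT1, ← Finset.prod_pow, ← Finset.prod_congr rfl fun b _ => hr2 b]
    have h4 := Finset.prod_fiberwise_of_maps_to (s := S.filter (fun g => e (π g) < e (π g)⁻¹))
      (t := (Finset.univ : Finset 𝒢).filter (fun b => e b < e b⁻¹)) (g := π)
      (fun g hg => Finset.mem_filter.2 ⟨Finset.mem_univ _, (Finset.mem_filter.1 hg).2⟩)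
      (fun g => t g * conj (t g))
    rw [← h4]
    refine Finset.prod_congr rfl fun b hb => ?_
    refine Finset.prod_congr ?_ fun _ _ => rfl
    ext g
    rw [Finset.mem_filter, Finset.mem_filter, hFm]
    constructor
    · rintro ⟨⟨h5, -⟩, h6⟩
      exact ⟨h5, h6⟩
    · rintro ⟨h5, h6⟩
      refine ⟨⟨h5, ?_⟩, h6⟩
      rw [h6]
      exact (Finset.mem_filter.1 hb).2
  have h4 : ∏ g ∈ B.filter (fun g => e g < e g⁻¹), (t g * conj (t g)) = (T2 : ℂ) ^ 2 := by
    rw [← hT2, ← Finset.prod_pow]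
    refine Finset.prod_congr rfl fun g hg => ?_
    rw [htB g (Finset.mem_filter.1 hg).1, pow_two]
  rw [h3, h4]
  push_cast
  ring

end Pool.Agent.L7h15.SQ
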