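import Pool.Agent.L7h15.SQ.Grp

/-!
# Project SQ: the product over the characters outside of a subgroup that contains all elements of order two
-/

set_option autoImplicit false
set_option linter.unusedSectionVars false

namespace Pool.Agent.L7h15.SQ

open Finset
open scoped ComplexConjugate

/-- a character that is trivial on the elements of order two is a square -/
theorem exists_sqrt {𝒢 : Type} [CommGroup 𝒢] [Finite 𝒢] (ν : 𝒢 →* ℂˣ) (h : ∀ g, g ^ 2 = 1 → ν g = 1) :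
    ∃ μ : 𝒢 →* ℂˣ, ∀ g, μ g ^ 2 = ν g := by
  let sq : 𝒢 →* 𝒢 := powMonoidHom 2
  have hker : sq.rangeRestrict.ker ≤ ν.ker := by
    intro g hg
    rw [MonoidHom.mem_ker] at hg ⊢
    have h1 : sq g = 1 := congrArg Subtype.val hg
    exact h g h1
  let ν' := sq.rangeRestrict.liftOfSurjective sq.rangeRestrict_surjective ⟨ν, hker⟩
  have hν' : ∀ g, ν' (sq.rangeRestrict g) = ν g := fun g =>
    MonoidHom.liftOfRightInverse_comp_apply _ _ _ ⟨ν, hker⟩ g
  obtain ⟨μ, hμ⟩ := MonoidHom.domRestrict_surjective (M := ℂ) sq.range ν'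
  refine ⟨μ, fun g => ?_⟩
  rw [← hν' g, ← hμ, ← map_pow]
  rfl

theorem grt {𝒢 : Type} [CommGroup 𝒢] [Fintype 𝒢] [DecidableEq 𝒢] (ℋ : Subgroup 𝒢) [DecidablePred (· ∈ ℋ)]
    (s : 𝒢 → ℂ) (ν : 𝒢 →* ℂˣ) (w : ℂ) (P : 𝒢 → Polynomial ℤ) (hℋ : ∀ g : 𝒢, g ^ 2 = 1 → g ∈ ℋ)
    (hFE : ∀ g, s g = w * (ν g : ℂ) * conj (s g)) (hinv : ∀ g, s g⁻¹ = conj (s g))
    (hP : ∀ g, ∀ k : ℕ, k.Coprime (Nat.card 𝒢) →
      Polynomial.aeval (Complex.exp (2 * Real.pi * Complex.I / (Nat.card 𝒢 : ℂ)) ^ k) (P g) = s (g ^ k))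
    (hnz : ∀ g ∈ ℋ, s g ≠ 0) : ∃ T : ℤ, ∏ g ∈ Finset.univ.filter (· ∉ ℋ), s g = (T : ℂ) ^ 2 := by
  have hN : Nat.card 𝒢 ≠ 0 := Nat.card_pos.ne'
  have hζ := Complex.isPrimitiveRoot_exp (Nat.card 𝒢) hN
  have i1 : NeZero (Nat.card 𝒢) := ⟨hN⟩
  set ζ := Complex.exp (2 * Real.pi * Complex.I / (Nat.card 𝒢 : ℂ)) with hζd
  obtain ⟨e, he⟩ : ∃ e : 𝒢 → ℕ, Function.Injective e :=
    ⟨fun g => (Fintype.equivFin 𝒢 g : ℕ), fun x y h => (Fintype.equivFin 𝒢).injective (Fin.ext h)⟩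
  -- `w = 1`, `ν` is trivial on the elements of order two
  have hw : w = 1 := by
    have h1 := hinv 1
    rw [inv_one] at h1
    have h2 := hFE 1
    rw [← h1, map_one, Units.val_one, mul_one] at h2
    have h3 := hnz 1 ℋ.one_mem
    exact mul_right_cancel₀ h3 (by rw [← h2, one_mul])
  subst hw
  have hν2 : ∀ g, g ^ 2 = 1 → ν g = 1 := by
    intro g hg
    have hgi : g⁻¹ = g := by rw [inv_eq_iff_mul_eq_one, ← pow_two, hg]
    have h1 := hinv g
    rw [hgi] at h1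
    have h2 := hFE g
    rw [← h1, one_mul] at h2
    have h3 := hnz g (hℋ g hg)
    apply Units.ext
    rw [Units.val_one]
    exact mul_right_cancel₀ h3 (by rw [← h2, one_mul])
  obtain ⟨μ, hμ⟩ := exists_sqrt ν hν2
  have hμN : ∀ g, (μ g : ℂ) ^ Nat.card 𝒢 = 1 := fun g => by
    rw [← Units.val_pow_eq_pow_val, ← map_pow, pow_card_eq_one', map_one, Units.val_one]
  have hμμ : ∀ g, (μ g : ℂ) * conj (μ g : ℂ) = 1 := by
    intro g
    have h2 : ‖(μ g : ℂ)‖ = 1 := Complex.norm_eq_one_of_pow_eq_one (hμN g) hN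
    rw [Complex.mul_conj, Complex.normSq_eq_norm_sq, h2]
    norm_num
  have hμi : ∀ g, (μ g⁻¹ : ℂ) = conj (μ g : ℂ) := by
    intro g
    have h1 : (μ g : ℂ) * (μ g⁻¹ : ℂ) = 1 := by
      rw [← Units.val_mul, ← map_mul, mul_inv_cancel, map_one, Units.val_one]
    exact mul_left_cancel₀ (μ g).ne_zero (by rw [h1, hμμ])
  have hμ2 : ∀ g, (μ g : ℂ) * (μ g : ℂ) = (ν g : ℂ) := by
    intro g
    rw [← hμ g, Units.val_pow_eq_pow_val, pow_two]
  -- the modified values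
  set t : 𝒢 → ℂ := fun g => (μ g⁻¹ : ℂ) * s g with ht
  have htc : ∀ g, conj (t g) = t g := by
    intro g
    simp only [ht]
    rw [map_mul, hμi, Complex.conj_conj]
    nth_rewrite 2 [hFE g]
    rw [← hμ2]
    linear_combination (-((μ g : ℂ) * conj (s g))) * hμμ g
  have hti : ∀ g, t g⁻¹ = t g := by
    intro g
    rw [← htc g]
    simp only [ht]
    rw [inv_inv, hinv, map_mul, hμi, Complex.conj_conj]
  have hts : ∀ g, s g * s g⁻¹ = t g ^ 2 := by
    intro g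
    rw [pow_two]
    nth_rewrite 1 [← htc g]
    rw [hinv]
    simp only [ht]
    rw [map_mul, hμi, Complex.conj_conj]
    linear_combination (-(s g * conj (s g))) * hμμ g
  have hV : ∀ g, ∃ V : Polynomial ℤ, ∀ k : ℕ, Polynomial.aeval (ζ ^ k) V = (μ (g ^ k) : ℂ) := by
    intro g
    obtain ⟨r, -, hr⟩ := hζ.eq_pow_of_pow_eq_one (hμN g)
    refine ⟨Polynomial.X ^ r, fun k => ?_⟩
    rw [map_pow, Polynomial.aeval_X, ← pow_mul, mul_comm k r, pow_mul, hr, map_pow,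
      Units.val_pow_eq_pow_val]
  choose V hV using hV
  have hPt : ∀ g, ∀ k : ℕ, k.Coprime (Nat.card 𝒢) →
      Polynomial.aeval (ζ ^ k) (V g⁻¹ * P g) = t (g ^ k) := by
    intro g k hk
    rw [map_mul, hV, hP g k hk, inv_pow]
  have hval1 : ∀ (Q : Polynomial ℤ), Polynomial.aeval ζ Q = Polynomial.aeval (ζ ^ 1) Q := fun Q => by
    rw [pow_one]
  -- the set
  set S := Finset.univ.filter (· ∉ ℋ) with hS
  have hSm : ∀ g, g ∈ S ↔ g ∉ ℋ := fun g => by rw [hS, Finset.mem_filter]; simp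
  have hSi : ∀ g ∈ S, g⁻¹ ∈ S := fun g hg => (hSm _).2 fun h => (hSm g).1 hg (by
    have := ℋ.inv_mem h
    rwa [inv_inv] at this)
  have hSk : ∀ {k : ℕ}, k.Coprime (Nat.card 𝒢) → ∀ g ∈ S, g ^ k ∈ S := by
    intro k hk g hg
    refine (hSm _).2 fun h => (hSm g).1 hg ?_
    obtain ⟨k', hk'⟩ := exists_pow_eq_self_of_coprime (x := g) (hk.coprime_dvd_right (orderOf_dvd_natCard g))
    rw [← hk']
    exact ℋ.pow_mem h k'
  have hS2 : ∀ g ∈ S, g ≠ g⁻¹ := by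
    intro g hg h
    refine (hSm g).1 hg (hℋ g ?_)
    rw [pow_two]
    nth_rewrite 1 [h]
    exact inv_mul_cancel g
  obtain ⟨T, hT⟩ := L7h50.RL.cyc_int hN hζ (∏ g ∈ S.filter (fun g => e g < e g⁻¹), (V g⁻¹ * P g)) (by
    intro k hk
    rw [hval1, map_prod, map_prod, Finset.prod_congr rfl fun b _ => hPt b k hk,
      Finset.prod_congr rfl fun b _ => hPt b 1 (Nat.coprime_one_left _)]
    simp only [pow_one]
    exact prod_reps hk hSi (hSk hk) he fun b _ => hti b)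
  rw [hval1, map_prod, Finset.prod_congr rfl fun b _ => hPt b 1 (Nat.coprime_one_left _)] at hT
  simp only [pow_one] at hT
  refine ⟨T, ?_⟩
  rw [prod_half (fun g => e g < e g⁻¹) hSi (fun g hg => by
    have h1 := hS2 g hg
    have h2 : e g ≠ e g⁻¹ := fun h => h1 (he h)
    rw [inv_inv]
    omega) s, Finset.prod_congr rfl fun g _ => hts g, Finset.prod_pow, hT]

end Pool.Agent.L7h15.SQ
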