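import Pool.Agent.L7h15.SQ.Val
import Pool.Agent.L7h15.SQ.Grt

/-!
# Project SQ: the values of the twists in a group of characters and in a subgroup that contains all characters of order two
-/

set_option autoImplicit false
set_option linter.unusedSectionVars false

namespace Pool.Agent.L7h15.SQ

open NumberField IsDedekindDomain Filter Topology
open Pool.Agent.K4H55.BI (rs Prd ee kap fv MF IQ BF ordK gen nu Fser_eq)
open Pool.Agent.K4H55.BK (Vals)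
open Pool.Agent.K4H55.CX (br efx facF ord)
open Pool.Agent.L7h82.RL
open scoped ComplexConjugate

variable {K : Type} [Field K] [NumberField K] [hP : IsPrincipalIdealRing (𝓞 K)] {σ : K →+* ℂ}
  {δ : K} {n : 𝓞 K} {c : Ideal (𝓞 K) → ℂ}

section grp

variable {𝒢 : Type} [CommGroup 𝒢] [Fintype 𝒢] {𝔣 : 𝒢 → Ideal (𝓞 K)} {χ : 𝒢 → 𝓞 K → ℂ}

/-- **the values of the twists, for a subgroup that contains all elements of order two** -/
theorem val_sq (h : IQ K σ δ) (hf : BF σ δ n c) {ω : ℂ} (hω : ∀ l ∈ Vals σ δ n c, ∃ j : ℤ, l = j * ω)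
    (hPK : ∀ g, PK (𝔣 g) (χ g))
    (hmul : ∀ g h x, χ g x ≠ 0 → χ h x ≠ 0 → χ (g * h) x = χ g x * χ h x)
    (hn : ∀ g, ∀ v : HeightOneSpectrum (𝓞 K), 𝔣 g ≤ v.asIdeal → n ∉ v.asIdeal) {G : 𝒢 → ℂ}
    (hG : ∀ g, G g = (kap (ordK h) * ω / nu (𝓞 K)) *
      (sZ h c ω (𝔣 g) (χ g) / gm (ordK h) (gn (𝔣 g)) (br (χ g))))
    (ℋ : Subgroup 𝒢) [Fintype ℋ] (hℋ : ∀ g : 𝒢, g ^ 2 = 1 → g ∈ ℋ) :
    Even (Nat.card 𝒢 - Nat.card ℋ) ∧
    ∃ ρ : ℚ, (∏ g, G g) / ((√(∏ g, (Ideal.absNorm (𝔣 g) : ℝ)) : ℝ) : ℂ) =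
      (ρ : ℂ) ^ 2 * ((∏ g : ℋ, G g) / ((√(∏ g : ℋ, (Ideal.absNorm (𝔣 g) : ℝ)) : ℝ) : ℂ)) *
        G 1 ^ (Nat.card 𝒢 - Nat.card ℋ) := by
  classical
  have hsplit : ∀ f : 𝒢 → ℂ, ∏ g, f g = (∏ g : ℋ, f g) * ∏ g ∈ Finset.univ.filter (· ∉ ℋ), f g := by
    intro f
    rw [← Finset.prod_filter_mul_prod_filter_not Finset.univ (· ∈ ℋ)]
    congr 1
    exact Finset.prod_subtype _ (fun g => by simp) _
  obtain ⟨ε, hε⟩ : ∃ e : 𝒢 → ℕ, Function.Injective e :=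
    ⟨fun g => (Fintype.equivFin 𝒢 g : ℕ), fun x y h => (Fintype.equivFin 𝒢).injective (Fin.ext h)⟩
  set S := Finset.univ.filter (· ∉ ℋ) with hS
  have hSm : ∀ g, g ∈ S ↔ g ∉ ℋ := fun g => by rw [hS, Finset.mem_filter]; simp
  have hSi : ∀ g ∈ S, g⁻¹ ∈ S := fun g hg => (hSm _).2 fun h => (hSm g).1 hg (by
    have := ℋ.inv_mem h
    rwa [inv_inv] at this)
  have hA : ∀ g ∈ S, (ε g < ε g⁻¹ ∧ ¬ ε g⁻¹ < ε g⁻¹⁻¹) ∨ (¬ ε g < ε g⁻¹ ∧ ε g⁻¹ < ε g⁻¹⁻¹) := by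
    intro g hg
    have h1 : ε g ≠ ε g⁻¹ := by
      intro h2
      have h3 := hε h2
      refine (hSm g).1 hg (hℋ g ?_)
      rw [pow_two]
      nth_rewrite 1 [h3]
      exact inv_mul_cancel g
    rw [inv_inv]
    omega
  have hcard : Nat.card 𝒢 = Nat.card ℋ + S.card := by
    rw [Nat.card_eq_fintype_card, Nat.card_eq_fintype_card,
      ← Finset.card_univ (α := 𝒢), ← Finset.card_filter_add_card_filter_not (s := Finset.univ) (· ∈ ℋ)]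
    congr 1
    rw [Fintype.card_subtype]
  have hScard : S.card = 2 * (S.filter (fun g => ε g < ε g⁻¹)).card := by
    have h1 := prod_half (fun g => ε g < ε g⁻¹) hSi hA (fun _ => (2 : ℂ))
    rw [Finset.prod_const, Finset.prod_const, show (2 : ℂ) * 2 = 2 ^ 2 by norm_num, ← pow_mul] at h1
    have h2 : (2 : ℕ) ^ S.card = 2 ^ (2 * (S.filter (fun g => ε g < ε g⁻¹)).card) := by exact_mod_cast h1
    exact Nat.pow_right_injective le_rfl h2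
  set m : ℕ := (S.filter (fun g => ε g < ε g⁻¹)).card with hm
  have hsub : Nat.card 𝒢 - Nat.card ℋ = 2 * m := by omega
  rw [hsub]
  refine ⟨even_two_mul m, ?_⟩
  by_cases hz : ∃ g : ℋ, G g = 0
  · obtain ⟨g, hg⟩ := hz
    have h1 : ∏ g, G g = 0 := Finset.prod_eq_zero (Finset.mem_univ (g : 𝒢)) hg
    exact ⟨0, by rw [h1]; simp⟩
  push Not at hz
  have hω0 : ω ≠ 0 := by
    rintro rfl
    apply hz 1
    rw [hG]
    simp
  obtain ⟨hch1, hch2, hch3, hch4⟩ := L7h50.RL.s_POW K 𝒢 𝔣 χ hPK hmul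
  obtain ⟨w, -, hFE⟩ := sZ_fe h hf hω hω0
  obtain ⟨V, hV⟩ := L7h50.RL.exists_V L7h50.RL.s_POW hPK hmul
  set s : 𝒢 → ℂ := fun g => sZ h c ω (𝔣 g) (χ g) with hs
  set γ : 𝒢 → ℂ := fun g => gm (ordK h) (gn (𝔣 g)) (br (χ g)) with hγ
  have hinv : ∀ g, s g⁻¹ = conj (s g) := by
    intro g
    simp only [hs]
    rw [conj_sZ, (hch4 g).1, (hch4 g).2]
    unfold sZ
    refine Finset.sum_congr rfl fun x _ => ?_
    unfold br
    rw [Complex.conj_conj]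
  have hsne : ∀ g ∈ ℋ, s g ≠ 0 := by
    intro g hg h0
    apply hz ⟨g, hg⟩
    rw [hG]
    have h1 : sZ h c ω (𝔣 g) (χ g) = 0 := h0
    show _ * (sZ h c ω (𝔣 g) (χ g) / _) = 0
    rw [h1, zero_div, mul_zero]
  let ν : 𝒢 →* ℂˣ :=
    { toFun := fun g => Units.mk0 (χ g n) (chn_ne (hPK g) (hn g))
      map_one' := Units.ext (hch1 n)
      map_mul' := fun g g' => Units.ext (hmul g g' n (chn_ne (hPK g) (hn g)) (chn_ne (hPK g') (hn g'))) }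
  obtain ⟨T, hT⟩ := grt ℋ s ν w
    (fun g => ∑ x ∈ rs (ordK h) (gn (𝔣 g)), V g⁻¹ x * Polynomial.C (Zf h c ω (𝔣 g) x)) hℋ
    (fun g => hFE _ _ (hPK g) (hn g)) hinv (by
      intro g k hk
      simp only [hs]
      unfold sZ
      rw [map_sum, (hch3 g k hk).1]
      refine Finset.sum_congr rfl fun x _ => ?_
      rw [map_mul, (hV g⁻¹ x).2 k hk, Polynomial.aeval_C, inv_pow, (hch4 (g ^ k)).2]
      rfl) hsne
  have hnN : ∀ g, Ideal.absNorm (𝔣 g) ≠ 0 := by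
    intro g
    rw [Ne, Ideal.absNorm_eq_zero_iff]
    exact (hPK g).f0
  -- the Gauss sums
  have hγγ : ∀ g, γ g * γ g⁻¹ = (Ideal.absNorm (𝔣 g) : ℂ) := by
    intro g
    obtain ⟨hm0, hPC⟩ := s_PCK K (𝔣 g) (χ g) (hPK g)
    obtain ⟨-, -, h5⟩ := s_GM (𝓞 K) (ordK h) (gn (𝔣 g)) (χ g) hm0 hPC
    obtain ⟨-, h7⟩ := h5 ((hPK g).unit (-1) isUnit_one.neg)
    have h8 : (ordK h).nm (gn (𝔣 g)) = Ideal.absNorm (𝔣 g) := by
      conv_rhs => rw [← gn_span (𝔣 g), Ideal.absNorm_span_singleton]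
      rfl
    rw [h8] at h7
    simp only [hγ]
    rw [(hch4 g).1, (hch4 g).2]
    have h9 : br (br (χ g)) = χ g := by
      funext x
      unfold br
      exact Complex.conj_conj _
    rw [h9, mul_comm]
    exact h7
  have hf1 : 𝔣 1 = ⊤ := by
    by_contra h1
    obtain ⟨y, -, h4, h5⟩ := (hPK 1).prim ⊤ (lt_top_iff_ne_top.2 h1)
    exact h5 (hch1 y)
  have hγ1 : γ 1 * γ 1 = 1 := by
    have h1 := hγγ 1
    rw [inv_one, hf1, Ideal.absNorm_top, Nat.cast_one] at h1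
    exact h1
  set M : ℕ := ∏ g ∈ S.filter (fun g => ε g < ε g⁻¹), Ideal.absNorm (𝔣 g) with hM
  have hM0 : M ≠ 0 := Finset.prod_ne_zero_iff.2 fun g _ => hnN g
  have hγS : ∏ g ∈ S, γ g = (M : ℂ) := by
    rw [prod_half (fun g => ε g < ε g⁻¹) hSi hA, Finset.prod_congr rfl fun g _ => hγγ g, hM]
    push_cast
    rfl
  have hNS : ∏ g ∈ S, (Ideal.absNorm (𝔣 g) : ℂ) = (M : ℂ) ^ 2 := by
    rw [prod_half (fun g => ε g < ε g⁻¹) hSi hA, hM]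
    push_cast
    rw [← Finset.prod_pow]
    refine Finset.prod_congr rfl fun g _ => ?_
    rw [(hch4 g).1, pow_two]
  set Dh : ℝ := ∏ g : ℋ, (Ideal.absNorm (𝔣 g) : ℝ) with hDh
  have hDh0 : 0 < Dh := Finset.prod_pos fun g _ => by
    have := hnN (g : 𝒢)
    positivity
  have hD : ∏ g, (Ideal.absNorm (𝔣 g) : ℝ) = Dh * (M : ℝ) ^ 2 := by
    have h1 := hsplit fun g => (Ideal.absNorm (𝔣 g) : ℂ)
    rw [hNS] at h1
    have h2 : ((∏ g, (Ideal.absNorm (𝔣 g) : ℝ) : ℝ) : ℂ) = ((Dh * (M : ℝ) ^ 2 : ℝ) : ℂ) := by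
      rw [hDh]
      push_cast
      exact h1
    exact_mod_cast h2
  have hsq : √(∏ g, (Ideal.absNorm (𝔣 g) : ℝ)) = √Dh * M := by
    rw [hD, Real.sqrt_mul hDh0.le, Real.sqrt_sq (Nat.cast_nonneg M)]
  set Sg : ℝ := √Dh with hSg
  have hSg0 : Sg ≠ 0 := (Real.sqrt_pos.2 hDh0).ne'
  set κ : ℂ := kap (ordK h) * ω / nu (𝓞 K) with hκ
  have hGS : ∏ g ∈ S, G g = κ ^ (2 * m) * (T : ℂ) ^ 2 / (M : ℂ) := by
    rw [Finset.prod_congr rfl fun g _ => hG g, Finset.prod_mul_distrib, Finset.prod_const,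
      Finset.prod_div_distrib, hScard]
    have h1 : ∏ g ∈ S, sZ h c ω (𝔣 g) (χ g) = (T : ℂ) ^ 2 := hT
    have h2 : ∏ g ∈ S, gm (ordK h) (gn (𝔣 g)) (br (χ g)) = (M : ℂ) := hγS
    rw [h1, h2, mul_div_assoc]
  -- the value for the trivial character
  have hG1 : G 1 = κ * (s 1 / γ 1) := hG 1
  obtain ⟨k, hk⟩ := (L7h50.RL.s_RAT L7h50.RL.s_CYC L7h50.RL.s_POW K 𝒢 𝔣 χ hPK hmul
    {1} (fun g hg k _ => by
      rw [Finset.mem_singleton] at hg ⊢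
      rw [hg, one_pow])).1 (fun 𝔣 => rs (ordK h) (gn 𝔣)) (Zf h c ω)
  rw [Finset.prod_singleton] at hk
  have hk' : s 1 = (k : ℂ) := hk
  have hk0 : (k : ℂ) ≠ 0 := by
    rw [← hk']
    exact hsne 1 ℋ.one_mem
  have hG1m : G 1 ^ (2 * m) = κ ^ (2 * m) * ((k : ℂ) ^ m) ^ 2 := by
    rw [hG1, hk', mul_pow κ, div_pow (k : ℂ) (γ 1)]
    have h1 : γ 1 ^ (2 * m) = 1 := by rw [pow_mul, pow_two, hγ1, one_pow]
    rw [h1, div_one, ← pow_mul, mul_comm m 2]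
  have hM0' : (M : ℂ) ≠ 0 := by exact_mod_cast hM0
  have hSg0' : (Sg : ℂ) ≠ 0 := by exact_mod_cast hSg0
  have hkm : (k : ℂ) ^ m ≠ 0 := pow_ne_zero m hk0
  refine ⟨(T : ℚ) / (M * (k : ℚ) ^ m), ?_⟩
  rw [hsplit G, hGS, hsq, hG1m]
  push_cast
  field_simp

end grp

end Pool.Agent.L7h15.SQ
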