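import Pool.Agent.L7h15.SQ.End
import Pool.Agent.L7h15.SQ.Val2
import Pool.Agent.L7h23.RL.CpCore

/-!
# Project SQ: towers `K ⊂ M ⊂ F` such that `M` contains all quadratic subextensions of `F/K`
-/

set_option autoImplicit false
set_option linter.unusedSectionVars false

namespace Pool.Agent.L7h15.SQ

open NumberField IsDedekindDomain Filter Topology
open Pool.Agent.K4H55.BI (rs Prd ee kap fv MF IQ BF ordK gen nu Fser_eq)
open Pool.Agent.K4H55.BK (Vals)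
open Pool.Agent.K4H55.CX (br efx facF ord)
open Pool.Agent.L7h82.RL
open scoped ComplexConjugate

section

variable {K : Type} [Field K] [NumberField K] [hP : IsPrincipalIdealRing (𝓞 K)] {σ : K →+* ℂ} {δ : K}
  {n : 𝓞 K} {c : Ideal (𝓞 K) → ℂ}

lemma rc_self (ψ : (K ≃ₐ[K] K) →* ℂˣ) : RC ψ (⊤ : Ideal (𝓞 K)) (fun _ => 1) := by
  have h1 : ∀ t : K ≃ₐ[K] K, t = 1 := fun t => AlgEquiv.ext fun x => t.commutes x
  refine ⟨⟨top_ne_bot, rfl, fun x y => (mul_one 1).symm, fun x => ?_, fun x y _ => rfl, fun u _ => rfl,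
      fun 𝔡 h𝔡 => absurd h𝔡 not_top_lt⟩, fun v hv => absurd (top_le_iff.1 hv) v.isPrime.ne_top,
      fun v _ u _ t _ => ?_⟩
  · constructor
    · intro h2
      exact absurd h2 one_ne_zero
    · rintro ⟨v, hv, -⟩
      exact absurd (top_le_iff.1 hv) v.isPrime.ne_top
  · rw [h1 t, map_one]
    rfl

theorem val_K {G : ℂ → ℂ} (g1 : Differentiable ℂ G)
    (g2 : ∀ s : ℂ, 2 < s.re → HasProd (efx n c (fun _ => 1) s) (G s)) (x : ℂ) :
    CVal (LF n c K) x ↔ x = G 1 := by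
  classical
  have h1 : ∀ t : K ≃ₐ[K] K, t = 1 := fun t => AlgEquiv.ext fun x => t.commutes x
  have hab : ∀ s t : K ≃ₐ[K] K, s * t = t * s := fun s t => by rw [h1 s, h1 t]
  have hu : ∀ ψ : (K ≃ₐ[K] K) →* ℂˣ, ψ = 1 := fun ψ => by
    ext t
    rw [h1 t, map_one, map_one]
  let i : Unique ((K ≃ₐ[K] K) →* ℂˣ) := ⟨⟨1⟩, hu⟩
  have h2 := val_LF (n := n) (c := c) (L := K) hab (𝔣 := fun _ => ⊤) (χ := fun _ _ => 1) (fun ψ => rc_self ψ)
    (G := fun _ => G) (fun _ => g1) (fun _ => g2) x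
  rw [h2, Fintype.prod_unique]

variable {M F : Type} [Field M] [NumberField M] [Algebra K M] [Field F] [NumberField F] [Algebra K F] [Algebra M F]
    [IsScalarTower K M F] [IsGalois K M] [IsGalois K F]

/-- characters of order two come from `M` -/
theorem quad_mem (hq : ∀ z : F, (∃ y : K, z ^ 2 = algebraMap K F y) → ∃ y : M, algebraMap M F y = z)
    (ψ : (F ≃ₐ[K] F) →* ℂˣ) (hψ : ψ ^ 2 = 1) :
    ∃ ψ' : (M ≃ₐ[K] M) →* ℂˣ, ψ'.comp (AlgEquiv.restrictNormalHom M) = ψ := by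
  obtain ⟨z, hz0, hz⟩ := L7h23.RL.exists_res ψ ((pow_two ψ).symm.trans hψ)
  have hzK : ∃ y : K, z ^ 2 = algebraMap K F y := by
    have h1 : z ^ 2 ∈ Set.range (algebraMap K F) := by
      rw [IsGalois.mem_range_algebraMap_iff_fixed]
      intro g
      rcases hz g with ⟨-, h2⟩ | ⟨-, h2⟩
      · rw [map_pow, h2]
      · rw [map_pow, h2, neg_sq]
    obtain ⟨y, hy⟩ := h1
    exact ⟨y, hy.symm⟩
  obtain ⟨y, hy⟩ := hq z hzK
  have hker : (AlgEquiv.restrictNormalHom (F := K) (K₁ := F) M).ker ≤ ψ.ker := by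
    intro g hg
    rw [MonoidHom.mem_ker] at hg ⊢
    rcases hz g with ⟨h1, -⟩ | ⟨-, h2⟩
    · exact h1
    · exfalso
      have h3 := AlgEquiv.restrictNormal_commutes g M y
      have h4 : (g.restrictNormal M) y = y := congrArg (fun t : M ≃ₐ[K] M => t y) hg
      rw [h4, hy, h2] at h3
      have h5 : (2 : F) * z = 0 := by linear_combination h3
      rcases mul_eq_zero.1 h5 with h6 | h6
      · exact two_ne_zero h6
      · exact hz0 h6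
  have hsurj : Function.Surjective (AlgEquiv.restrictNormalHom (F := K) (K₁ := F) M) :=
    AlgEquiv.restrictNormalHom_surjective F
  refine ⟨(AlgEquiv.restrictNormalHom (F := K) (K₁ := F) M).liftOfRightInverse
    (Function.surjInv hsurj) (Function.rightInverse_surjInv hsurj) ⟨ψ, hker⟩, ?_⟩
  apply MonoidHom.ext
  intro g
  exact MonoidHom.liftOfRightInverse_comp_apply _ _ (Function.rightInverse_surjInv hsurj) ⟨ψ, hker⟩ g

/-- **the theorem for towers** -/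
theorem tower (h : IQ K σ δ) (hf : BF σ δ n c)
    {ω : ℂ} (hω : ∀ l ∈ Vals σ δ n c, ∃ j : ℤ, l = j * ω)
    (habM : ∀ s t : M ≃ₐ[K] M, s * t = t * s) (hab : ∀ s t : F ≃ₐ[K] F, s * t = t * s)
    {𝔣 : ((F ≃ₐ[K] F) →* ℂˣ) → Ideal (𝓞 K)} {χ : ((F ≃ₐ[K] F) →* ℂˣ) → 𝓞 K → ℂ}
    (hR : ∀ ψ, RC ψ (𝔣 ψ) (χ ψ))
    {𝔣M : ((M ≃ₐ[K] M) →* ℂˣ) → Ideal (𝓞 K)} {χM : ((M ≃ₐ[K] M) →* ℂˣ) → 𝓞 K → ℂ}
    (hRM : ∀ ψ, RC ψ (𝔣M ψ) (χM ψ))
    (hn : ∀ ψ, ∀ v : HeightOneSpectrum (𝓞 K), 𝔣 ψ ≤ v.asIdeal → n ∉ v.asIdeal)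
    (hdF : |(discr F : ℝ)| = |(discr K : ℝ)| ^ Module.finrank K F * ∏ᶠ ψ, (Ideal.absNorm (𝔣 ψ) : ℝ))
    (hdM : |(discr M : ℝ)| = |(discr K : ℝ)| ^ Module.finrank K M * ∏ᶠ ψ, (Ideal.absNorm (𝔣M ψ) : ℝ))
    (hq : ∀ z : F, (∃ y : K, z ^ 2 = algebraMap K F y) → ∃ y : M, algebraMap M F y = z) :
    Even (Module.finrank K F - Module.finrank K M) ∧
    (∃ x, CVal (LF n c F) x) ∧ (∃ x, CVal (LF n c M) x) ∧ (∃ x, CVal (LF n c K) x) ∧
    ∃ ρ : ℚ, ∀ (xF xM xK : ℂ), CVal (LF n c F) xF → CVal (LF n c M) xM → CVal (LF n c K) xK →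
      xF / ((√|(discr F : ℝ)| : ℝ) : ℂ) =
        (ρ : ℂ) ^ 2 * (xM / ((√|(discr M : ℝ)| : ℝ) : ℂ)) *
          (xK / ((√|(discr K : ℝ)| : ℝ) : ℂ)) ^ (Module.finrank K F - Module.finrank K M) := by
  classical
  have hfinF := finite_dual hab
  have : Fintype ((F ≃ₐ[K] F) →* ℂˣ) := Fintype.ofFinite _
  have hfinM := finite_dual habM
  have : Fintype ((M ≃ₐ[K] M) →* ℂˣ) := Fintype.ofFinite _
  obtain ⟨hmul, -, -⟩ := L7h60.RL.s_CLS K F hab 𝔣 χ hR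
  choose G g1 g2 g3 using fun ψ => val_one h hf hω (hR ψ).ch (hn ψ)
  -- the characters of `Gal(M/K)`
  let φ : ((M ≃ₐ[K] M) →* ℂˣ) →* ((F ≃ₐ[K] F) →* ℂˣ) :=
    MonoidHom.compHom' (AlgEquiv.restrictNormalHom (F := K) (K₁ := F) M)
  have hφ : ∀ ψ, φ ψ = ψ.comp (AlgEquiv.restrictNormalHom M) := fun ψ => rfl
  have hφi : Function.Injective φ := by
    intro ψ ψ' he
    rw [hφ, hφ] at he
    apply MonoidHom.ext
    intro s
    obtain ⟨s', rfl⟩ := AlgEquiv.restrictNormalHom_surjective (F := K) (K₁ := M) F s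
    exact congrArg (fun k : (F ≃ₐ[K] F) →* ℂˣ => k s') he
  set ℋ := φ.range with hℋ
  have hquad : ∀ g : (F ≃ₐ[K] F) →* ℂˣ, g ^ 2 = 1 → g ∈ ℋ := fun g hg => by
    obtain ⟨ψ', hψ'⟩ := quad_mem (M := M) hq g hg
    exact ⟨ψ', hψ'⟩
  let e : ((M ≃ₐ[K] M) →* ℂˣ) ≃ ℋ := (MonoidHom.ofInjective hφi).toEquiv
  have he : ∀ ψ, ((e ψ : ℋ) : (F ≃ₐ[K] F) →* ℂˣ) = ψ.comp (AlgEquiv.restrictNormalHom M) := fun ψ => rfl
  have : Fintype ℋ := Fintype.ofFinite _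
  have hcard : Nat.card ℋ = Module.finrank K M := by
    rw [← Nat.card_congr e, card_dual_eq habM]
  have hRM' : ∀ ψ : (M ≃ₐ[K] M) →* ℂˣ, 𝔣M ψ = 𝔣 (e ψ) ∧ χM ψ = χ (e ψ) := by
    intro ψ
    have h1 := hR (e ψ : (F ≃ₐ[K] F) →* ℂˣ)
    rw [he] at h1 ⊢
    exact rc_unique (hRM ψ) (dsc M h1)
  have hvF := val_LF (n := n) (c := c) hab hR g1 g2
  have hvM := val_LF (n := n) (c := c) habM hRM (fun ψ => g1 (e ψ)) (fun ψ => by
    rw [(hRM' ψ).2]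
    exact g2 (e ψ))
  have hch1 : χ 1 = fun _ => 1 := funext (L7h50.RL.s_POW K _ 𝔣 χ (fun ψ => (hR ψ).ch) hmul).1
  have hvK := val_K (n := n) (c := c) (g1 1) (by
    have := g2 1
    rwa [hch1] at this)
  obtain ⟨heven, ρ, hρ⟩ := val_sq h hf hω (fun ψ => (hR ψ).ch) hmul hn (G := fun ψ => G ψ 1) g3 ℋ hquad
  rw [card_dual_eq hab, hcard] at heven hρ
  refine ⟨heven, ⟨_, (hvF _).2 rfl⟩, ⟨_, (hvM _).2 rfl⟩, ⟨_, (hvK _).2 rfl⟩, ρ, fun xF xM xK h1 h2 h3 => ?_⟩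
  rw [(hvF xF).1 h1, (hvM xM).1 h2, (hvK xK).1 h3]
  have e1 : ∏ ψ : (M ≃ₐ[K] M) →* ℂˣ, G (e ψ) 1 = ∏ g : ℋ, G g 1 := Equiv.prod_comp e (fun g : ℋ => G g 1)
  rw [e1]
  have hdM' : |(discr M : ℝ)| = |(discr K : ℝ)| ^ Module.finrank K M *
      ∏ g : ℋ, (Ideal.absNorm (𝔣 g) : ℝ) := by
    rw [hdM, finprod_eq_prod_of_fintype]
    congr 1
    rw [← Equiv.prod_comp e]
    exact Finset.prod_congr rfl fun ψ _ => by rw [(hRM' ψ).1]
  rw [finprod_eq_prod_of_fintype] at hdF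
  have hsq : ∀ (k : ℕ) (D : ℝ), √(|(discr K : ℝ)| ^ k * D) = √|(discr K : ℝ)| ^ k * √D := by
    intro k D
    rw [Real.sqrt_mul (by positivity)]
    congr 1
    have h6 : |(discr K : ℝ)| ^ k = (√|(discr K : ℝ)| ^ k) ^ 2 := by
      rw [← pow_mul, mul_comm k 2, pow_mul, Real.sq_sqrt (abs_nonneg _)]
    rw [h6, Real.sqrt_sq (by positivity)]
  have hle : Module.finrank K M ≤ Module.finrank K F := by
    have h5 : Module.finrank K F = Module.finrank K M * Module.finrank M F :=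
      (Module.finrank_mul_finrank K M F).symm
    rw [h5]
    exact Nat.le_mul_of_pos_right _ Module.finrank_pos
  have hdK : ((√|(discr K : ℝ)| : ℝ) : ℂ) ≠ 0 := by
    have h5 : (discr K : ℝ) ≠ 0 := by exact_mod_cast discr_ne_zero K
    have h6 : √|(discr K : ℝ)| ≠ 0 := by positivity
    exact_mod_cast h6
  rw [hdM', hdF, hsq, hsq]
  push_cast at hρ ⊢
  have e4 : ∀ A B C : ℂ, A / (B * C) = (A / C) / B := fun A B C => by rw [mul_comm B C, div_div]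
  rw [e4, e4, hρ, div_pow]
  obtain ⟨d, hd⟩ := Nat.exists_eq_add_of_le hle
  rw [hd, Nat.add_sub_cancel_left, pow_add]
  generalize ((√|(discr K : ℝ)| : ℝ) : ℂ) = r at hdK
  field_simp

end

end Pool.Agent.L7h15.SQ
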