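import Pool.Agent.L7h15.SQ.Grp
import Pool.Agent.L7h53.SQ.Fe
import Pool.Agent.L7h82.RL.Asm

/-!
# Project SQ: the values of the twists in a group of characters and in a subgroup of odd index
-/

set_option autoImplicit false
set_option linter.unusedSectionVars false

namespace Pool.Agent.L7h15.SQ

open NumberField IsDedekindDomain Filter Topology
open Pool.Agent.K4H55.BI (rs Prd ee kap fv MF IQ BF ordK gen nu Fser_eq)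
open Pool.Agent.K4H55.BK (Vals)
open Pool.Agent.K4H55.CX (br efx facF ord)
open Pool.Agent.L7h82.RL
open scoped ComplexConjugate

variable {K : Type} [Field K] [NumberField K] [hP : IsPrincipalIdealRing (𝓞 K)] {σ : K →+* ℂ}
  {δ : K} {n : 𝓞 K} {c : Ideal (𝓞 K) → ℂ}

lemma fv_Z (h : IQ K σ δ) (hf : BF σ δ n c) {ω : ℂ} (hω : ∀ l ∈ Vals σ δ n c, ∃ j : ℤ, l = j * ω)
    {𝔣 : Ideal (𝓞 K)} {χ : 𝓞 K → ℂ} (hχ : PK 𝔣 χ)
    (hn : ∀ v : HeightOneSpectrum (𝓞 K), 𝔣 ≤ v.asIdeal → n ∉ v.asIdeal) (x : 𝓞 K) :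
    fv (ordK h) (cc c) ((ordK h).ι x / (ordK h).ι (gn 𝔣)) = (Zf h c ω 𝔣 x : ℂ) * ω := by
  have hm := (s_PCK K 𝔣 χ hχ).1
  have hco := gn_coprime hχ.f0 hn
  have h1 : ∃ j : ℤ, fv (ordK h) (cc c) ((ordK h).ι x / (ordK h).ι (gn 𝔣)) = j * ω :=
    hω _ (vals_mem h hf hm hco)
  unfold Zf
  rw [dif_pos h1]
  exact h1.choose_spec

lemma chn_ne {𝔣 : Ideal (𝓞 K)} {χ : 𝓞 K → ℂ} (hχ : PK 𝔣 χ)
    (hn : ∀ v : HeightOneSpectrum (𝓞 K), 𝔣 ≤ v.asIdeal → n ∉ v.asIdeal) : χ n ≠ 0 := by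
  intro h0
  obtain ⟨v, h1, h2⟩ := (hχ.zero n).1 h0
  exact hn v h1 h2

lemma conj_sZ (h : IQ K σ δ) (ω : ℂ) (𝔣 : Ideal (𝓞 K)) (χ : 𝓞 K → ℂ) :
    conj (sZ h c ω 𝔣 χ) = ∑ x ∈ rs (ordK h) (gn 𝔣), χ x * (Zf h c ω 𝔣 x : ℂ) := by
  unfold sZ
  rw [map_sum]
  refine Finset.sum_congr rfl fun x _ => ?_
  rw [map_mul, Complex.conj_conj, map_intCast]

/-- the functional equation of the values -/
theorem sZ_fe (h : IQ K σ δ) (hf : BF σ δ n c) {ω : ℂ} (hω : ∀ l ∈ Vals σ δ n c, ∃ j : ℤ, l = j * ω)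
    (hω0 : ω ≠ 0) : ∃ w : ℂ, (w = 1 ∨ w = -1) ∧ ∀ (𝔣 : Ideal (𝓞 K)) (χ : 𝓞 K → ℂ), PK 𝔣 χ →
      (∀ v : HeightOneSpectrum (𝓞 K), 𝔣 ≤ v.asIdeal → n ∉ v.asIdeal) →
      sZ h c ω 𝔣 χ = w * χ n * conj (sZ h c ω 𝔣 χ) := by
  obtain ⟨C, w, κ, κW, hN⟩ := hf.newf h
  have hMG := hN.mg
  refine ⟨w, mul_self_eq_one_iff.1 hN.w2, fun 𝔣 χ hχ hn => ?_⟩
  obtain ⟨hm, hpc⟩ := s_PCK K 𝔣 χ hχ
  have hcop := gn_coprime hχ.f0 hn
  have h1 := L7h53.SQ.s_FE (𝓞 K) (ordK h) n (cc c) C w (gn 𝔣) χ hMG.toMF hm hpc hcop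
    (hχ.unit _ isUnit_one.neg)
  rw [sm_eq h hf hω hχ hn] at h1
  have h2 : ∑ x ∈ rs (ordK h) (gn 𝔣), χ x * fv (ordK h) (cc c) ((ordK h).ι x / (ordK h).ι (gn 𝔣)) =
      ω * conj (sZ h c ω 𝔣 χ) := by
    rw [conj_sZ, Finset.mul_sum]
    refine Finset.sum_congr rfl fun x _ => ?_
    rw [fv_Z h hf hω hχ hn]
    ring
  rw [h2] at h1
  apply mul_left_cancel₀ hω0
  rw [h1]
  ring

section grp

variable {𝒢 : Type} [CommGroup 𝒢] [Fintype 𝒢] {𝔣 : 𝒢 → Ideal (𝓞 K)} {χ : 𝒢 → 𝓞 K → ℂ}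

/-- **the values of the twists, for a subgroup of odd index** -/
theorem val_tower (h : IQ K σ δ) (hf : BF σ δ n c) {ω : ℂ} (hω : ∀ l ∈ Vals σ δ n c, ∃ j : ℤ, l = j * ω)
    (hPK : ∀ g, PK (𝔣 g) (χ g))
    (hmul : ∀ g h x, χ g x ≠ 0 → χ h x ≠ 0 → χ (g * h) x = χ g x * χ h x)
    (hn : ∀ g, ∀ v : HeightOneSpectrum (𝓞 K), 𝔣 g ≤ v.asIdeal → n ∉ v.asIdeal) {G : 𝒢 → ℂ}
    (hG : ∀ g, G g = (kap (ordK h) * ω / nu (𝓞 K)) *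
      (sZ h c ω (𝔣 g) (χ g) / gm (ordK h) (gn (𝔣 g)) (br (χ g))))
    (ℋ : Subgroup 𝒢) [Fintype ℋ] (hodd : Odd ℋ.index) :
    ∃ ρ : ℚ, (∏ g, G g) / ((√(∏ g, (Ideal.absNorm (𝔣 g) : ℝ)) : ℝ) : ℂ) =
      (ρ : ℂ) ^ 2 * ((∏ g : ℋ, G g) / ((√(∏ g : ℋ, (Ideal.absNorm (𝔣 g) : ℝ)) : ℝ) : ℂ)) ^ ℋ.index := by
  classical
  have hsplit : ∀ f : 𝒢 → ℂ, ∏ g, f g = (∏ g : ℋ, f g) * ∏ g ∈ Finset.univ.filter (· ∉ ℋ), f g := by
    intro f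
    rw [← Finset.prod_filter_mul_prod_filter_not Finset.univ (· ∈ ℋ)]
    congr 1
    exact Finset.prod_subtype _ (fun g => by simp) _
  by_cases hz : ∃ g : ℋ, G g = 0
  · obtain ⟨g, hg⟩ := hz
    have h1 : ∏ g, G g = 0 := Finset.prod_eq_zero (Finset.mem_univ (g : 𝒢)) hg
    exact ⟨0, by rw [h1]; simp⟩
  push Not at hz
  have hω0 : ω ≠ 0 := by
    rintro rfl
    apply hz 1
    rw [hG]
    simp
  obtain ⟨hch1, hch2, hch3, hch4⟩ := L7h50.RL.s_POW K 𝒢 𝔣 χ hPK hmul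
  obtain ⟨w, hw, hFE⟩ := sZ_fe h hf hω hω0
  obtain ⟨V, hV⟩ := L7h50.RL.exists_V L7h50.RL.s_POW hPK hmul
  set s : 𝒢 → ℂ := fun g => sZ h c ω (𝔣 g) (χ g) with hs
  set γ : 𝒢 → ℂ := fun g => gm (ordK h) (gn (𝔣 g)) (br (χ g)) with hγ
  have hinv : ∀ g, s g⁻¹ = conj (s g) := by
    intro g
    simp only [hs]
    rw [conj_sZ, (hch4 g).1, (hch4 g).2]
    unfold sZ
    refine Finset.sum_congr rfl fun x _ => ?_
    unfold br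
    rw [Complex.conj_conj]
  have hsne : ∀ g ∈ ℋ, s g ≠ 0 := by
    intro g hg h0
    apply hz ⟨g, hg⟩
    rw [hG]
    have h1 : sZ h c ω (𝔣 g) (χ g) = 0 := h0
    show _ * (sZ h c ω (𝔣 g) (χ g) / _) = 0
    rw [h1, zero_div, mul_zero]
  obtain ⟨T, hT⟩ := s_GRP 𝒢 ℋ s (fun g => χ g n) w
    (fun g => ∑ x ∈ rs (ordK h) (gn (𝔣 g)), V g⁻¹ x * Polynomial.C (Zf h c ω (𝔣 g) x)) hodd hw
    (fun g g' => hmul g g' n (chn_ne (hPK g) (hn g)) (chn_ne (hPK g') (hn g')))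
    (fun g => (hPK g).nrm (chn_ne (hPK g) (hn g))) (fun g => hFE _ _ (hPK g) (hn g)) hinv (by
      intro g k hk
      simp only [hs]
      unfold sZ
      rw [map_sum, (hch3 g k hk).1]
      refine Finset.sum_congr rfl fun x _ => ?_
      rw [map_mul, (hV g⁻¹ x).2 k hk, Polynomial.aeval_C, inv_pow, (hch4 (g ^ k)).2]
      rfl) hsne
  -- the subgroup
  obtain ⟨k, hk⟩ := (L7h50.RL.s_RAT L7h50.RL.s_CYC L7h50.RL.s_POW K 𝒢 𝔣 χ hPK hmul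
    (Finset.univ.filter (· ∈ ℋ)) (fun g hg k _ => by
      rw [Finset.mem_filter] at hg ⊢
      exact ⟨Finset.mem_univ _, ℋ.pow_mem hg.2 k⟩)).1 (fun 𝔣 => rs (ordK h) (gn 𝔣)) (Zf h c ω)
  have hk' : ∏ g : ℋ, s g = (k : ℂ) := by
    rw [← hk]
    exact (Finset.prod_subtype (Finset.univ.filter (· ∈ ℋ)) (fun g => by simp) s).symm
  have hk0 : (k : ℂ) ≠ 0 := by
    rw [← hk']
    exact Finset.prod_ne_zero_iff.2 fun g _ => hsne g g.2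
  obtain ⟨e, he, hgs⟩ := L7h50.RL.s_GS s_PCK s_GM L7h50.RL.s_POW K σ δ h ℋ (fun g => 𝔣 g) (fun g => χ g)
    (fun g => hPK g) (fun g g' x h1 h2 => hmul g g' x h1 h2)
  have hnN : ∀ g, Ideal.absNorm (𝔣 g) ≠ 0 := by
    intro g
    rw [Ne, Ideal.absNorm_eq_zero_iff]
    exact (hPK g).f0
  -- the Gauss sums
  have hγγ : ∀ g, γ g * γ g⁻¹ = (Ideal.absNorm (𝔣 g) : ℂ) := by
    intro g
    obtain ⟨hm0, hPC⟩ := s_PCK K (𝔣 g) (χ g) (hPK g)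
    obtain ⟨-, -, h5⟩ := s_GM (𝓞 K) (ordK h) (gn (𝔣 g)) (χ g) hm0 hPC
    obtain ⟨-, h7⟩ := h5 ((hPK g).unit (-1) isUnit_one.neg)
    have h8 : (ordK h).nm (gn (𝔣 g)) = Ideal.absNorm (𝔣 g) := by
      conv_rhs => rw [← gn_span (𝔣 g), Ideal.absNorm_span_singleton]
      rfl
    rw [h8] at h7
    simp only [hγ]
    rw [(hch4 g).1, (hch4 g).2]
    have h9 : br (br (χ g)) = χ g := by
      funext x
      unfold br
      exact Complex.conj_conj _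
    rw [h9, mul_comm]
    exact h7
  obtain ⟨ε, hε⟩ : ∃ e : 𝒢 → ℕ, Function.Injective e :=
    ⟨fun g => (Fintype.equivFin 𝒢 g : ℕ), fun x y h => (Fintype.equivFin 𝒢).injective (Fin.ext h)⟩
  set S := Finset.univ.filter (· ∉ ℋ) with hS
  have hSm : ∀ g, g ∈ S ↔ g ∉ ℋ := fun g => by rw [hS, Finset.mem_filter]; simp
  have hSi : ∀ g ∈ S, g⁻¹ ∈ S := fun g hg => (hSm _).2 fun h => (hSm g).1 hg (by
    have := ℋ.inv_mem h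
    rwa [inv_inv] at this)
  have hA : ∀ g ∈ S, (ε g < ε g⁻¹ ∧ ¬ ε g⁻¹ < ε g⁻¹⁻¹) ∨ (¬ ε g < ε g⁻¹ ∧ ε g⁻¹ < ε g⁻¹⁻¹) := by
    intro g hg
    have h1 : ε g ≠ ε g⁻¹ := by
      intro h2
      have h3 := hε h2
      refine (hSm g).1 hg (mem_of_two hodd (a := 1) ?_)
      have : g ^ 2 = 1 := by
        rw [pow_two]
        nth_rewrite 1 [h3]
        exact inv_mul_cancel g
      rw [pow_one, this]
      exact ℋ.one_mem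
    rw [inv_inv]
    omega
  set M : ℕ := ∏ g ∈ S.filter (fun g => ε g < ε g⁻¹), Ideal.absNorm (𝔣 g) with hM
  have hM0 : M ≠ 0 := Finset.prod_ne_zero_iff.2 fun g _ => hnN g
  have hγS : ∏ g ∈ S, γ g = (M : ℂ) := by
    rw [prod_half (fun g => ε g < ε g⁻¹) hSi hA, Finset.prod_congr rfl fun g _ => hγγ g, hM]
    push_cast
    rfl
  have hNS : ∏ g ∈ S, (Ideal.absNorm (𝔣 g) : ℂ) = (M : ℂ) ^ 2 := by
    rw [prod_half (fun g => ε g < ε g⁻¹) hSi hA, hM]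
    push_cast
    rw [← Finset.prod_pow]
    refine Finset.prod_congr rfl fun g _ => ?_
    rw [(hch4 g).1, pow_two]
  set Dh : ℝ := ∏ g : ℋ, (Ideal.absNorm (𝔣 g) : ℝ) with hDh
  have hDhn : Dh = ((∏ g : ℋ, Ideal.absNorm (𝔣 g) : ℕ) : ℝ) := by
    rw [hDh]
    push_cast
    rfl
  have hDh0 : 0 < Dh := Finset.prod_pos fun g _ => by
    have := hnN (g : 𝒢)
    positivity
  have hD : ∏ g, (Ideal.absNorm (𝔣 g) : ℝ) = Dh * (M : ℝ) ^ 2 := by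
    have h1 := hsplit fun g => (Ideal.absNorm (𝔣 g) : ℂ)
    rw [hNS] at h1
    have h2 : ((∏ g, (Ideal.absNorm (𝔣 g) : ℝ) : ℝ) : ℂ) = ((Dh * (M : ℝ) ^ 2 : ℝ) : ℂ) := by
      rw [hDh]
      push_cast
      exact h1
    exact_mod_cast h2
  have hsq : √(∏ g, (Ideal.absNorm (𝔣 g) : ℝ)) = √Dh * M := by
    rw [hD, Real.sqrt_mul hDh0.le, Real.sqrt_sq (Nat.cast_nonneg M)]
  set Sg : ℝ := √Dh with hSg
  have hSg0 : Sg ≠ 0 := (Real.sqrt_pos.2 hDh0).ne'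
  have hSg2 : Sg * Sg = Dh := Real.mul_self_sqrt hDh0.le
  set κ : ℂ := kap (ordK h) * ω / nu (𝓞 K) with hκ
  have hGh : ∏ g : ℋ, G g = κ ^ Nat.card ℋ * (k : ℂ) / ((e : ℂ) * (Sg : ℂ)) := by
    rw [Finset.prod_congr rfl fun (g : ℋ) _ => hG (g : 𝒢), Finset.prod_mul_distrib, Finset.prod_const,
      Finset.card_univ, ← Nat.card_eq_fintype_card, Finset.prod_div_distrib]
    have h1 : ∏ g : ℋ, sZ h c ω (𝔣 g) (χ g) = (k : ℂ) := hk'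
    rw [h1, hgs]
    push_cast
    rw [mul_div_assoc]
  have hGS : ∏ g ∈ S, G g = κ ^ S.card * (T : ℂ) ^ 2 / (M : ℂ) := by
    rw [Finset.prod_congr rfl fun g _ => hG g, Finset.prod_mul_distrib, Finset.prod_const,
      Finset.prod_div_distrib]
    have h1 : ∏ g ∈ S, sZ h c ω (𝔣 g) (χ g) = (T : ℂ) ^ 2 := hT
    have h2 : ∏ g ∈ S, gm (ordK h) (gn (𝔣 g)) (br (χ g)) = (M : ℂ) := hγS
    rw [h1, h2, mul_div_assoc]
  have hcard : Nat.card ℋ + S.card = Nat.card ℋ * ℋ.index := by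
    rw [Subgroup.card_mul_index, Nat.card_eq_fintype_card, Nat.card_eq_fintype_card,
      ← Finset.card_univ (α := 𝒢), ← Finset.card_filter_add_card_filter_not (s := Finset.univ) (· ∈ ℋ)]
    congr 1
    rw [Fintype.card_subtype]
  obtain ⟨m, hm⟩ := hodd
  refine ⟨(T : ℚ) / M * (((∏ g : ℋ, Ideal.absNorm (𝔣 g) : ℕ) : ℚ) / k) ^ m, ?_⟩
  rw [hsplit G, hGh, hGS, hsq]
  have hM0' : (M : ℂ) ≠ 0 := by exact_mod_cast hM0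
  have hSg0' : (Sg : ℂ) ≠ 0 := by exact_mod_cast hSg0
  have hDc : (((∏ g : ℋ, Ideal.absNorm (𝔣 g) : ℕ) : ℚ) : ℂ) = (Sg : ℂ) * (Sg : ℂ) := by
    rw [← Complex.ofReal_mul, hSg2, hDhn]
    push_cast
    rfl
  have he2 : (e : ℂ) * (e : ℂ) = 1 := by
    rcases he with rfl | rfl
    · simp
    · norm_num
  have he0 : (e : ℂ) ≠ 0 := fun h0 => by
    rw [h0, zero_mul] at he2
    exact zero_ne_one he2
  have hpow : κ ^ Nat.card ℋ * κ ^ S.card = (κ ^ Nat.card ℋ) ^ (2 * m + 1) := by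
    rw [← pow_add, hcard, hm, pow_mul]
  set A : ℂ := κ ^ Nat.card ℋ with hAd
  set X : ℂ := (k : ℂ) / ((e : ℂ) * (Sg : ℂ)) / (Sg : ℂ) with hX
  have hX2 : X * X = ((k : ℂ) / ((Sg : ℂ) * (Sg : ℂ))) ^ 2 := by
    rw [hX]
    field_simp
    rw [pow_two (e : ℂ), he2]
    try ring
  rw [Rat.cast_mul, Rat.cast_div, Rat.cast_intCast, Rat.cast_natCast, Rat.cast_pow, Rat.cast_div, hDc,
    Rat.cast_intCast, hm]
  have e1 : A * (k : ℂ) / ((e : ℂ) * (Sg : ℂ)) / (Sg : ℂ) = A * X := by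
    rw [hX]
    ring
  have e2 : (A * (k : ℂ) / ((e : ℂ) * (Sg : ℂ)) * (κ ^ S.card * (T : ℂ) ^ 2 / (M : ℂ))) /
      ((Sg * (M : ℝ) : ℝ) : ℂ) = (A * κ ^ S.card) * X * ((T : ℂ) / M) ^ 2 := by
    rw [hX]
    push_cast
    field_simp
  have h4 : (A * X) ^ (2 * m + 1) = A ^ (2 * m + 1) * ((X * X) ^ m * X) := by
    rw [mul_pow, pow_succ X, pow_mul X, pow_two X]
  have h5 : (((Sg : ℂ) * (Sg : ℂ) / (k : ℂ)) ^ m) ^ 2 = (((Sg : ℂ) * (Sg : ℂ) / (k : ℂ)) ^ 2) ^ m := by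
    rw [← pow_mul, ← pow_mul, mul_comm m 2]
  rw [e1, e2, hpow, h4, hX2, mul_pow ((T : ℂ) / M), h5]
  have h3 : (((Sg : ℂ) * (Sg : ℂ) / (k : ℂ)) ^ 2) ^ m * (((k : ℂ) / ((Sg : ℂ) * (Sg : ℂ))) ^ 2) ^ m = 1 := by
    rw [← mul_pow, ← mul_pow]
    have : (Sg : ℂ) * (Sg : ℂ) / (k : ℂ) * ((k : ℂ) / ((Sg : ℂ) * (Sg : ℂ))) = 1 := by
      field_simp
    rw [this, one_pow, one_pow]
  linear_combination (-(A ^ (2 * m + 1) * X * ((T : ℂ) / M) ^ 2)) * h3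

end grp

end Pool.Agent.L7h15.SQ
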